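import Pool.Agent.H549R2.CV.Defs

namespace Pool.Agent.NPC.H549CV

open Pool.Agent.H625R2 Pool.Agent.NPC.ER Pool.Agent.NPC.ER.Tens Pool.Agent.NPC.H670R2

variable {N : ℕ} {F : List (List (Bool × ℕ × ℕ))}

theorem pev_append (p q : QP) (x : ℕ → ℝ) : pev (p ++ q) x = pev p x + pev q x := by
  unfold pev
  rw [List.map_append, List.sum_append]

theorem pev_nil (x : ℕ → ℝ) : pev [] x = 0 := by simp [pev]

theorem pev_cons (t : ℤ × List ℕ) (p : QP) (x : ℕ → ℝ) :
    pev (t :: p) x = (t.1 : ℝ) * (t.2.map x).prod + pev p x := by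
  unfold pev
  rw [List.map_cons, List.sum_cons]

theorem pev_termsA (C : ℤ) (N : ℕ) (x : ℕ → ℝ) :
    pev (termsA C N) x = C * (inn N x x * inn N (fun i => x (N + i)) (fun i => x (N + i))) := by
  have h := sum_pairs N x (fun i => x (N + i))
  unfold pev termsA
  rw [List.map_map]
  rw [← h, ← List.sum_map_mul_left]
  congr 1
  refine List.map_congr_left fun p _ => ?_
  simp only [Function.comp, List.map_cons, List.map_nil, List.prod_cons, List.prod_nil]
  ring

theorem pev_termsD (Γ : ℤ) (N s : ℕ) (x : ℕ → ℝ) :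
    pev (termsD Γ N s) x = Γ * inn N (fun i => x (s + i)) (fun i => x (s + i)) ^ 2 := by
  have h := sum_pairs N (fun i => x (s + i)) (fun i => x (s + i))
  unfold pev termsD
  rw [List.map_map]
  rw [sq, ← h, ← List.sum_map_mul_left]
  congr 1
  refine List.map_congr_left fun p _ => ?_
  simp only [Function.comp, List.map_cons, List.map_nil, List.prod_cons, List.prod_nil]
  ring

theorem sgnZ_cast (b : Bool) : ((sgnZ b : ℤ) : ℝ) = sgn b := by
  cases b <;> simp [sgnZ, sgn]

theorem pev_map (b : List (Bool × ℕ × ℕ)) (m : Bool × ℕ × ℕ) (N : ℕ) (x : ℕ → ℝ) :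
    pev (b.map fun m' => (-(sgnZ m.1 * sgnZ m'.1), [m.2.1, N + m.2.2, m'.2.1, N + m'.2.2])) x =
      -(sgn m.1 * (x m.2.1 * x (N + m.2.2))) * bval b x (fun i => x (N + i)) := by
  induction b with
  | nil => simp [pev]
  | cons m' b ih =>
    rw [List.map_cons, pev_cons, ih, bval_cons]
    simp only [List.map_cons, List.map_nil, List.prod_cons, List.prod_nil]
    push_cast
    rw [sgnZ_cast, sgnZ_cast]
    ring

theorem pev_flatMap {α : Type} (l : List α) (f : α → QP) (x : ℕ → ℝ) :
    pev (l.flatMap f) x = (l.map fun a => pev (f a) x).sum := by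
  induction l with
  | nil => simp [pev]
  | cons a l ih => rw [List.flatMap_cons, pev_append, ih, List.map_cons, List.sum_cons]

theorem pev_termsB (N : ℕ) (b : List (Bool × ℕ × ℕ)) (x : ℕ → ℝ) :
    pev (termsB N b) x = -(bval b x (fun i => x (N + i)) ^ 2) := by
  unfold termsB
  rw [pev_flatMap]
  simp only [pev_map]
  rw [List.sum_map_mul_right]
  have h : (b.map fun m => -(sgn m.1 * (x m.2.1 * x (N + m.2.2)))).sum =
      -(bval b x (fun i => x (N + i))) := by
    induction b with
    | nil => simp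
    | cons m b ih => rw [List.map_cons, List.sum_cons, ih, bval_cons]; ring
  rw [h]
  ring

theorem pev_mkP (C Γ : ℤ) (N : ℕ) (F : List (List (Bool × ℕ × ℕ))) (x : ℕ → ℝ) :
    pev (mkP C Γ N F).2 x = GG C Γ N F x (fun i => x (N + i)) := by
  have hF : pev (F.flatMap (termsB N)) x = - SS F x (fun i => x (N + i)) := by
    rw [pev_flatMap]
    induction F with
    | nil => simp [SS_nil]
    | cons b F ih => rw [List.map_cons, List.sum_cons, ih, SS_cons, pev_termsB]; ring
  have h0 : (fun i => x (0 + i)) = x := by funext i; rw [zero_add]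
  unfold mkP GG bq
  simp only
  rw [pev_append, pev_append, pev_append, pev_termsA, pev_termsD, pev_termsD, hF, h0]
  ring

theorem isForm_mkP (C Γ : ℤ) (hF : ∀ b ∈ F, ∀ m ∈ b, m.2.1 < N ∧ m.2.2 < N) :
    IsForm (mkP C Γ N F) := by
  intro t ht
  unfold mkP at ht
  simp only [List.mem_append, List.mem_flatMap] at ht
  rcases ht with (ht | ⟨b, hb, ht⟩) | (ht | ht)
  · unfold termsA at ht
    rw [List.mem_map] at ht
    obtain ⟨p, hp, rfl⟩ := ht
    rw [mem_pairs] at hp
    refine ⟨rfl, fun i hi => ?_⟩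
    simp only [List.mem_cons, List.not_mem_nil, or_false] at hi
    change i < 2 * N
    omega
  · unfold termsB at ht
    rw [List.mem_flatMap] at ht
    obtain ⟨m, hm, ht⟩ := ht
    rw [List.mem_map] at ht
    obtain ⟨m', hm', rfl⟩ := ht
    have h1 := hF b hb m hm
    have h2 := hF b hb m' hm'
    refine ⟨rfl, fun i hi => ?_⟩
    simp only [List.mem_cons, List.not_mem_nil, or_false] at hi
    change i < 2 * N
    omega
  · unfold termsD at ht
    rw [List.mem_map] at ht
    obtain ⟨p, hp, rfl⟩ := ht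
    rw [mem_pairs] at hp
    refine ⟨rfl, fun i hi => ?_⟩
    simp only [List.mem_cons, List.not_mem_nil, or_false] at hi
    change i < 2 * N
    omega
  · unfold termsD at ht
    rw [List.mem_map] at ht
    obtain ⟨p, hp, rfl⟩ := ht
    rw [mem_pairs] at hp
    refine ⟨rfl, fun i hi => ?_⟩
    simp only [List.mem_cons, List.not_mem_nil, or_false] at hi
    change i < 2 * N
    omega

end Pool.Agent.NPC.H549CV
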