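import Pool.Agent.H549R2.CV.Defs

namespace Pool.Agent.NPC.H549CV

open Pool.Agent.H625R2 Pool.Agent.NPC.ER Pool.Agent.NPC.ER.Tens Pool.Agent.NPC.H670R2

theorem redQ_idx (S : List Con) : ∀ q ∈ redQ S, ∀ m ∈ q, m.2.1 < redN S ∧ m.2.2 < redN S :=
  quads_idx (n := (allVars S).length) (M := redM S) (S := renS S) renS_vars

theorem redN_pos (S : List Con) : 0 < redN S := by
  unfold redN
  omega

theorem redF_idx (S : List Con) : ∀ b ∈ redF S, ∀ m ∈ b, m.2.1 < redN S ∧ m.2.2 < redN S :=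
  forms_idx (redN_pos S) (redQ_idx S)

theorem bq_eq (S : List Con) (v w : ℕ → ℝ) :
    bq (redC S : ℝ) (redN S) (redF S) v w = 2 * Bq (redN S) (redQ S) v w := by
  unfold bq redF
  rw [SS_forms (redN S) (redQ S) (redQ_idx S)]
  unfold redC
  rw [length_rl]
  push_cast
  ring

theorem sat_iff (S : List Con) :
    Sat S ↔ ∃ v w : ℕ → ℝ, bq (redC S : ℝ) (redN S) (redF S) v w < 0 := by
  have h3 := quads_iff (n := (allVars S).length) (S := renS S) renS_vars
  rw [length_renS] at h3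
  rw [← sat_renS, h3]
  constructor
  · rintro ⟨v, hv⟩
    refine ⟨v, v, ?_⟩
    rw [bq_eq, Bq_self]
    have hv' : Phi (redQ S) v < 0 := hv
    linarith
  · rintro ⟨v, w, h⟩
    rw [bq_eq] at h
    by_contra hcon
    push Not at hcon
    have := Bq_nonneg (redN_pos S) (redQ_idx S) hcon v w
    linarith

end Pool.Agent.NPC.H549CV
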