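import Pool.Agent.H549R2.CV.W3
import Pool.Agent.H549R2.CV.W5
import Pool.Agent.H549R2.CV.W7

namespace Pool.Agent.NPC.H549CV

open Pool.Agent.H625R2 Pool.Agent.NPC.ER Pool.Agent.NPC.ER.Tens Pool.Agent.NPC.H670R2

theorem fn_redP (S : List Con) (x : Fin (redP S).1 → ℝ) :
    fn (redP S) x = GG (redC S : ℝ) (redG S : ℝ) (redN S) (redF S) (ext x)
      (fun i => ext x (redN S + i)) := by
  have h := pev_mkP (redC S : ℤ) (redG S : ℤ) (redN S) (redF S) (ext x)
  push_cast at h
  exact h

theorem ext_comb8 {n : ℕ} (x y : Fin n → ℝ) (a b : ℝ) (i : ℕ) :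
    ext (a • x + b • y) i = a * ext x i + b * ext y i := by
  unfold ext
  split_ifs with h
  · simp
  · simp

theorem ext_fin {n : ℕ} (x : Fin n → ℝ) (i : Fin n) : ext x i = x i := by
  unfold ext
  rw [dif_pos i.2]

theorem inn_pos {N : ℕ} {f : ℕ → ℝ} {i : ℕ} (hi : i < N) (h : f i ≠ 0) : 0 < inn N f f := by
  have h1 := sq_le_inn f hi
  have h2 : 0 < f i ^ 2 := by positivity
  linarith

theorem redG_le (S : List Con) : (redC S : ℝ) + lsq (redF S) + 1 ≤ (redG S : ℝ) := by
  unfold redG
  push_cast
  exact le_rfl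

theorem unsat_pos (S : List Con) (h : ¬ Sat S) (v w : ℕ → ℝ) :
    0 ≤ bq (redC S : ℝ) (redN S) (redF S) v w := by
  rw [sat_iff] at h
  push Not at h
  exact h v w

theorem unsat_ineq (S : List Con) (h : ¬ Sat S) (x y : Fin (redP S).1 → ℝ) (a b : ℝ)
    (ha : 0 ≤ a) (hb : 0 ≤ b) (hab : a + b = 1) :
    fn (redP S) (a • x + b • y) +
      a * b / 4 * (inn (redN S) (fun i => ext x i - ext y i) (fun i => ext x i - ext y i) ^ 2 +
        inn (redN S) (fun i => ext x (redN S + i) - ext y (redN S + i))
          (fun i => ext x (redN S + i) - ext y (redN S + i)) ^ 2) ≤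
      a * fn (redP S) x + b * fn (redP S) y := by
  have h1 := GG_conv (redF_idx S) (Nat.cast_nonneg (redC S)) (redG_le S) (unsat_pos S h) (ext x)
    (fun i => ext x (redN S + i)) (ext y) (fun i => ext y (redN S + i)) a b ha hb hab
  rw [fn_redP, fn_redP, fn_redP]
  have e1 : ext (a • x + b • y) = fun i => a * ext x i + b * ext y i := by
    funext i
    exact ext_comb8 x y a b i
  rw [e1]
  exact h1

theorem unsat_scvx (S : List Con) (h : ¬ Sat S) : SCvx (redP S) := by
  refine ⟨convex_univ, fun x _ y _ hxy a b ha hb hab => ?_⟩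
  have h1 := unsat_ineq S h x y a b ha.le hb.le hab
  rw [smul_eq_mul, smul_eq_mul]
  have h2 : 0 < inn (redN S) (fun i => ext x i - ext y i) (fun i => ext x i - ext y i) ^ 2 +
        inn (redN S) (fun i => ext x (redN S + i) - ext y (redN S + i))
          (fun i => ext x (redN S + i) - ext y (redN S + i)) ^ 2 := by
    obtain ⟨i, hi⟩ := Function.ne_iff.1 hxy
    have hi2 : (i : ℕ) < 2 * redN S := i.2
    have hne : ext x i - ext y i ≠ 0 := by
      rw [ext_fin, ext_fin]
      exact sub_ne_zero.2 hi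
    by_cases hlt : (i : ℕ) < redN S
    · have := inn_pos (f := fun i => ext x i - ext y i) hlt hne
      positivity
    · obtain ⟨j, hj⟩ : ∃ j, (i : ℕ) = redN S + j := ⟨i - redN S, by omega⟩
      rw [hj] at hne
      have := inn_pos (f := fun i => ext x (redN S + i) - ext y (redN S + i))
        (show j < redN S by omega) hne
      positivity
  have h3 : 0 < a * b / 4 * (inn (redN S) (fun i => ext x i - ext y i)
      (fun i => ext x i - ext y i) ^ 2 +
        inn (redN S) (fun i => ext x (redN S + i) - ext y (redN S + i))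
          (fun i => ext x (redN S + i) - ext y (redN S + i)) ^ 2) := by positivity
  linarith

end Pool.Agent.NPC.H549CV
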