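import Pool.Agent.H549R2.CV.W4
import Pool.Agent.H549R2.CV.W8

namespace Pool.Agent.NPC.H549CV

open Pool.Agent.H625R2 Pool.Agent.NPC.ER Pool.Agent.NPC.ER.Tens Pool.Agent.NPC.H670R2

theorem inn_congr {N : ℕ} {v w v' w' : ℕ → ℝ} (hv : ∀ i < N, v i = v' i)
    (hw : ∀ i < N, w i = w' i) : inn N v w = inn N v' w' := by
  unfold inn
  refine Finset.sum_congr rfl fun i hi => ?_
  rw [Finset.mem_range] at hi
  rw [hv i hi, hw i hi]

theorem bval_congr' {N : ℕ} {b : List (Bool × ℕ × ℕ)} (hb : ∀ m ∈ b, m.2.1 < N ∧ m.2.2 < N)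
    {v w v' w' : ℕ → ℝ} (hv : ∀ i < N, v i = v' i) (hw : ∀ i < N, w i = w' i) :
    bval b v w = bval b v' w' := by
  induction b with
  | nil => simp
  | cons m b ih =>
    obtain ⟨h1, h2⟩ := hb m (by simp)
    rw [bval_cons, bval_cons, ih (fun m' hm' => hb m' (List.mem_cons_of_mem _ hm')), hv _ h1,
      hw _ h2]

theorem GG_congr {C Γ : ℝ} {N : ℕ} {F : List (List (Bool × ℕ × ℕ))}
    (hF : ∀ b ∈ F, ∀ m ∈ b, m.2.1 < N ∧ m.2.2 < N) {v w v' w' : ℕ → ℝ}
    (hv : ∀ i < N, v i = v' i) (hw : ∀ i < N, w i = w' i) :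
    GG C Γ N F v w = GG C Γ N F v' w' := by
  have h1 : SS F v w = SS F v' w' := by
    induction F with
    | nil => simp [SS_nil]
    | cons b F ih =>
      rw [SS_cons, SS_cons, ih (fun b' hb' => hF b' (List.mem_cons_of_mem _ hb')),
        bval_congr' (hF b (by simp)) hv hw]
  unfold GG bq
  rw [h1, inn_congr hv hv, inn_congr hw hw]

/-- the point with coordinates `v` and `c w` -/
def pt (S : List Con) (v w : ℕ → ℝ) (c : ℝ) : Fin (redP S).1 → ℝ :=
  fun i => if (i : ℕ) < redN S then v i else c * w (i - redN S)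

theorem ext_pt_left (S : List Con) (v w : ℕ → ℝ) (c : ℝ) (i : ℕ) (hi : i < redN S) :
    ext (pt S v w c) i = v i := by
  have h : i < (redP S).1 := by
    change i < 2 * redN S
    omega
  unfold ext
  rw [dif_pos h]
  unfold pt
  simp only
  rw [if_pos hi]

theorem ext_pt_right (S : List Con) (v w : ℕ → ℝ) (c : ℝ) (i : ℕ) (hi : i < redN S) :
    ext (pt S v w c) (redN S + i) = c * w i := by
  have h : redN S + i < (redP S).1 := by
    change redN S + i < 2 * redN S
    omega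
  unfold ext
  rw [dif_pos h]
  unfold pt
  simp only
  rw [if_neg (by omega)]
  congr 2
  omega

theorem fn_pt (S : List Con) (v w : ℕ → ℝ) (c : ℝ) :
    fn (redP S) (pt S v w c) =
      GG (redC S : ℝ) (redG S : ℝ) (redN S) (redF S) v (fun i => c * w i) := by
  rw [fn_redP]
  exact GG_congr (redF_idx S) (fun i hi => ext_pt_left S v w c i hi)
    (fun i hi => ext_pt_right S v w c i hi)

theorem pt_mid (S : List Con) (v w : ℕ → ℝ) (r : ℝ) :
    (1 / 2 : ℝ) • pt S v w r + (1 / 2 : ℝ) • pt S v w (-r) = pt S v w 0 := by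
  funext i
  simp only [Pi.add_apply, Pi.smul_apply, smul_eq_mul, pt]
  split_ifs
  · ring
  · ring

theorem pt_line (S : List Con) (v w : ℕ → ℝ) (r t : ℝ) :
    pt S v w 0 + t • (pt S v w r - pt S v w 0) = pt S v w (t * r) := by
  funext i
  simp only [Pi.add_apply, Pi.smul_apply, Pi.sub_apply, smul_eq_mul, pt]
  split_ifs
  · ring
  · ring

theorem fn_pt_zero (S : List Con) (v w : ℕ → ℝ) : fn (redP S) (pt S v w 0) =
    GG (redC S : ℝ) (redG S : ℝ) (redN S) (redF S) v (fun _ => 0) := by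
  rw [fn_pt]
  congr 1
  funext i
  ring

theorem sat_not_qcvx (S : List Con) (h : Sat S) : ¬ QCvx (redP S) := by
  rw [sat_iff] at h
  obtain ⟨v, w, hvw⟩ := h
  obtain ⟨r, _, h1, h2⟩ := exists_lt (Γ := (redG S : ℝ)) hvw
  intro hq
  have h3 := (quasiconvexOn_iff_le_max.1 hq).2 (Set.mem_univ (pt S v w r))
    (Set.mem_univ (pt S v w (-r))) (show (0 : ℝ) ≤ 1 / 2 by norm_num)
    (show (0 : ℝ) ≤ 1 / 2 by norm_num) (by norm_num)
  rw [pt_mid, fn_pt_zero, fn_pt, fn_pt] at h3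
  rcases le_max_iff.1 h3 with h4 | h4
  · linarith
  · linarith

theorem sat_not_pcvx (S : List Con) (h : Sat S) : ¬ PCvx (redP S) := by
  rw [sat_iff] at h
  obtain ⟨v, w, hvw⟩ := h
  obtain ⟨r, _, h1, _⟩ := exists_lt (Γ := (redG S : ℝ)) hvw
  intro hp
  have h3 := hp (pt S v w 0) (pt S v w r) (by rw [fn_pt_zero, fn_pt]; exact h1)
  have h4 : (fun t : ℝ => fn (redP S) (pt S v w 0 + t • (pt S v w r - pt S v w 0))) =
      fun t : ℝ => (redG S : ℝ) * inn (redN S) v v ^ 2 +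
        (t * r) ^ 2 * bq (redC S : ℝ) (redN S) (redF S) v w +
        (t * r) ^ 4 * ((redG S : ℝ) * inn (redN S) w w ^ 2) := by
    funext t
    rw [pt_line, fn_pt, GG_line]
  rw [h4] at h3
  generalize (redG S : ℝ) * inn (redN S) v v ^ 2 = A at h3
  generalize bq (redC S : ℝ) (redN S) (redF S) v w = B at h3
  generalize (redG S : ℝ) * inn (redN S) w w ^ 2 = D at h3
  have h5 : HasDerivAt (fun t : ℝ => A + (t * r) ^ 2 * B + (t * r) ^ 4 * D) 0 0 := by
    have k0 : HasDerivAt (fun t : ℝ => t * r) r 0 := by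
      simpa using (hasDerivAt_id (0 : ℝ)).mul_const r
    have k1 := ((k0.pow 2).mul_const B).const_add A
    have k2 := k1.add ((k0.pow 4).mul_const D)
    refine k2.congr_deriv ?_
    simp
  rw [h5.deriv] at h3
  exact lt_irrefl _ h3

end Pool.Agent.NPC.H549CV
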