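import Pool.Agent.H549R2.CV.W12

namespace Pool.Agent.NPC.H549CV

open Pool.Agent.H625R2 Pool.Agent.NPC.ER Pool.Agent.NPC.ER.Tens Pool.Agent.NPC.H670R2

theorem quarB_iff (P : ℕ × QP) : quarB P = true ↔ IsQuartic P := by
  unfold quarB IsQuartic
  simp [List.all_eq_true]

theorem formB_iff (P : ℕ × QP) : formB P = true ↔ IsForm P := by
  unfold formB IsForm
  simp [List.all_eq_true]

theorem allOcc_aux (l : List ℕ) : ∃ i ∈ List.range (l.length + 1), i ∉ l := by
  by_contra hc
  push Not at hc
  have h1 : (List.range (l.length + 1)).Nodup := List.nodup_range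
  have h2 : List.Subperm (List.range (l.length + 1)) l := h1.subperm hc
  have h3 := h2.length_le
  rw [List.length_range] at h3
  omega

theorem allOcc_iff (P : ℕ × QP) : allOcc P = true ↔ ∀ i < P.1, i ∈ occ P.2 := by
  unfold allOcc
  rw [List.all_eq_true]
  have key : ∀ i, ((!(decide (i < P.1)) || (occ P.2).any fun j => decide (j = i)) = true) ↔
      (i < P.1 → i ∈ occ P.2) := by
    intro i
    simp only [Bool.or_eq_true, Bool.not_eq_true', decide_eq_false_iff_not, List.any_eq_true,
      decide_eq_true_eq, exists_eq_right]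
    tauto
  simp only [key]
  constructor
  · intro h i hi
    by_cases h1 : i < (occ P.2).length + 1
    · exact h i (List.mem_range.mpr h1) hi
    · exfalso
      obtain ⟨j, hj, hj2⟩ := allOcc_aux (occ P.2)
      refine hj2 (h j hj ?_)
      rw [List.mem_range] at hj
      omega
  · intro h i _ hi
    exact h i hi

theorem quarB_poly : Poly quarB := by
  refine Poly.all (p := fun (P : ℕ × QP) (t : ℤ × List ℕ) =>
    decide (t.2.length ≤ 4) && t.2.all fun i => decide (i < P.1)) (Poly.snd Poly.id) ?_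
  refine Poly.and (Poly.decide_le (Poly.length (Poly.snd (Poly.snd Poly.id))) (Poly.const 4)) ?_
  exact Poly.all (p := fun (x : (ℕ × QP) × (ℤ × List ℕ)) (i : ℕ) => decide (i < x.1.1))
    (Poly.snd (Poly.snd Poly.id))
    (Poly.decide_lt (Poly.snd Poly.id) (Poly.fst (Poly.fst (Poly.fst Poly.id))))

theorem formB_poly : Poly formB := by
  refine Poly.all (p := fun (P : ℕ × QP) (t : ℤ × List ℕ) =>
    decide (t.2.length = 4) && t.2.all fun i => decide (i < P.1)) (Poly.snd Poly.id) ?_
  refine Poly.and (Poly.decide_eq (Poly.length (Poly.snd (Poly.snd Poly.id))) (Poly.const 4)) ?_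
  exact Poly.all (p := fun (x : (ℕ × QP) × (ℤ × List ℕ)) (i : ℕ) => decide (i < x.1.1))
    (Poly.snd (Poly.snd Poly.id))
    (Poly.decide_lt (Poly.snd Poly.id) (Poly.fst (Poly.fst (Poly.fst Poly.id))))

theorem occ_poly : Poly occ :=
  Poly.flatMap (F := fun (_ : QP) (t : ℤ × List ℕ) => t.2) Poly.id (Poly.snd (Poly.snd Poly.id))

theorem allOcc_poly : Poly allOcc := by
  have hocc : Poly (fun P : ℕ × QP => occ P.2) := occ_poly.comp (Poly.snd Poly.id)
  have hU : UPoly (fun P : ℕ × QP => (occ P.2).length + 1) :=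
    UPoly.add (UPoly.length hocc) (UPoly.const 1)
  refine Poly.all (p := fun (P : ℕ × QP) (i : ℕ) =>
    !(decide (i < P.1)) || (occ P.2).any fun j => decide (j = i)) (UPoly.range hU) ?_
  refine Poly.or (Poly.not (Poly.decide_lt (Poly.snd Poly.id) (Poly.fst (Poly.fst Poly.id)))) ?_
  exact Poly.any (p := fun (x : (ℕ × QP) × ℕ) (j : ℕ) => decide (j = x.2))
    (hocc.comp (Poly.fst Poly.id)) (Poly.decide_eq (Poly.snd Poly.id) (Poly.snd (Poly.fst Poly.id)))

theorem vX_poly : Poly vX :=
  poly_tvar (Poly.add (Poly.mul (Poly.const 2) Poly.id) (Poly.const 2))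

theorem vY_poly : Poly vY :=
  poly_tvar (Poly.add (Poly.mul (Poly.const 2) Poly.id) (Poly.const 3))

theorem vZ_poly : Poly vZ :=
  poly_tadd (poly_tmul (Poly.const _) vX_poly) (poly_tmul (Poly.const _) vY_poly)

theorem cvxFm_poly : Poly cvxFm := by
  have hX : Poly (fun p : QP => evT p vX) := evT_poly (p := fun p : QP => p) Poly.id vX_poly
  have hY : Poly (fun p : QP => evT p vY) := evT_poly (p := fun p : QP => p) Poly.id vY_poly
  have hZ : Poly (fun p : QP => evT p vZ) := evT_poly (p := fun p : QP => p) Poly.id vZ_poly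
  refine poly_conj (Poly.append (Poly.const _) (Poly.cons (poly_lt ?_ hZ) (Poly.const _)))
  exact poly_tadd (poly_tmul (Poly.const _) hX) (poly_tmul (Poly.const _) hY)

theorem qcvxFm_poly : Poly qcvxFm := by
  have hX : Poly (fun p : QP => evT p vX) := evT_poly (p := fun p : QP => p) Poly.id vX_poly
  have hY : Poly (fun p : QP => evT p vY) := evT_poly (p := fun p : QP => p) Poly.id vY_poly
  have hZ : Poly (fun p : QP => evT p vZ) := evT_poly (p := fun p : QP => p) Poly.id vZ_poly
  exact poly_conj (Poly.append (Poly.const _) (Poly.cons (poly_lt hX hZ)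
    (Poly.cons (poly_lt hY hZ) (Poly.const _))))

theorem neTm_poly : Poly neTm := by
  have h1 : Poly (fun x : QP × ℕ => Tm.add (vX x.2) (Tm.neg (vY x.2))) :=
    poly_tadd (vX_poly.comp (Poly.snd Poly.id)) (poly_tneg (vY_poly.comp (Poly.snd Poly.id)))
  exact poly_sumTm (Poly.map (F := fun (_ : QP) (i : ℕ) =>
    Tm.mul (Tm.add (vX i) (Tm.neg (vY i))) (Tm.add (vX i) (Tm.neg (vY i)))) occ_poly
    (poly_tmul h1 h1))

theorem scvxFm_poly : Poly scvxFm := by
  have hX : Poly (fun p : QP => evT p vX) := evT_poly (p := fun p : QP => p) Poly.id vX_poly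
  have hY : Poly (fun p : QP => evT p vY) := evT_poly (p := fun p : QP => p) Poly.id vY_poly
  have hZ : Poly (fun p : QP => evT p vZ) := evT_poly (p := fun p : QP => p) Poly.id vZ_poly
  refine poly_conj (Poly.cons (Poly.const _) (Poly.cons (Poly.const _) (Poly.cons (Poly.const _)
    (Poly.cons (poly_lt (Poly.const _) neTm_poly) (Poly.cons (poly_le ?_ hZ) (Poly.const _))))))
  exact poly_tadd (poly_tmul (Poly.const _) hX) (poly_tmul (Poly.const _) hY)

theorem pcvxFm_poly : Poly pcvxFm := by
  have hX : Poly (fun p : QP => evT p vX) := evT_poly (p := fun p : QP => p) Poly.id vX_poly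
  have hY : Poly (fun p : QP => evT p vY) := evT_poly (p := fun p : QP => p) Poly.id vY_poly
  have hD : Poly (fun i : ℕ => Tm.add (vY i) (Tm.neg (vX i))) :=
    poly_tadd vY_poly (poly_tneg vX_poly)
  have hT : Poly (fun p : QP => dT p vX (fun i => Tm.add (vY i) (Tm.neg (vX i)))) :=
    dT_poly (p := fun p : QP => p) Poly.id vX_poly hD
  exact poly_conj (Poly.cons (poly_lt hY hX) (Poly.cons (poly_le (Poly.const _) hT)
    (Poly.const _)))

end Pool.Agent.NPC.H549CV
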