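import Pool.Agent.H549R2.CV.W12

namespace Pool.Agent.NPC.H549CV

open Pool.Agent.H625R2 Pool.Agent.NPC.ER Pool.Agent.NPC.ER.Tens Pool.Agent.NPC.H670R2

theorem pev_congr_lt {P : ℕ × QP} (h : IsQuartic P) {f g : ℕ → ℝ} (hfg : ∀ i < P.1, f i = g i) :
    pev P.2 f = pev P.2 g := by
  unfold pev
  congr 1
  refine List.map_congr_left fun t ht => ?_
  congr 2
  exact List.map_congr_left fun i hi => hfg i ((h t ht).2 i hi)

/-- the assignment of the variables for a pair of points and a pair of weights -/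
def asg {n : ℕ} (a b : ℝ) (x y : Fin n → ℝ) (k : ℕ) : ℝ :=
  if k = 0 then a else if k = 1 then b else
    if k % 2 = 0 then ext x ((k - 2) / 2) else ext y ((k - 3) / 2)

theorem asg_zero {n : ℕ} (a b : ℝ) (x y : Fin n → ℝ) : asg a b x y 0 = a := by simp [asg]

theorem asg_one {n : ℕ} (a b : ℝ) (x y : Fin n → ℝ) : asg a b x y 1 = b := by simp [asg]

theorem asg_even {n : ℕ} (a b : ℝ) (x y : Fin n → ℝ) (i : ℕ) :
    asg a b x y (2 * i + 2) = ext x i := by
  unfold asg
  rw [if_neg (by omega), if_neg (by omega), if_pos (by omega)]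
  congr 1
  omega

theorem asg_odd {n : ℕ} (a b : ℝ) (x y : Fin n → ℝ) (i : ℕ) :
    asg a b x y (2 * i + 3) = ext y i := by
  unfold asg
  rw [if_neg (by omega), if_neg (by omega), if_neg (by omega)]
  congr 1
  omega

theorem ext_comb {n : ℕ} (a b : ℝ) (x y : Fin n → ℝ) (i : ℕ) :
    ext (a • x + b • y) i = a * ext x i + b * ext y i := by
  unfold ext
  split_ifs with h
  · simp
  · simp

theorem evX_asg (p : QP) {n : ℕ} (a b : ℝ) (x y : Fin n → ℝ) :
    (evT p vX).eval (asg a b x y) = pev p (ext x) := by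
  rw [eval_evT]
  congr 1
  funext i
  simp only [vX, Tm.eval, asg_even]

theorem evY_asg (p : QP) {n : ℕ} (a b : ℝ) (x y : Fin n → ℝ) :
    (evT p vY).eval (asg a b x y) = pev p (ext y) := by
  rw [eval_evT]
  congr 1
  funext i
  simp only [vY, Tm.eval, asg_odd]

theorem evZ_asg (p : QP) {n : ℕ} (a b : ℝ) (x y : Fin n → ℝ) :
    (evT p vZ).eval (asg a b x y) = pev p (ext (a • x + b • y)) := by
  rw [eval_evT]
  congr 1
  funext i
  rw [ext_comb]
  simp only [vZ, vX, vY, Tm.eval, asg_even, asg_odd, asg_zero, asg_one]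

/-- the first point of an assignment -/
def ptX (n : ℕ) (v : ℕ → ℝ) (i : Fin n) : ℝ := v (2 * i + 2)

/-- the second point of an assignment -/
def ptY (n : ℕ) (v : ℕ → ℝ) (i : Fin n) : ℝ := v (2 * i + 3)

theorem evX_pt {P : ℕ × QP} (h : IsQuartic P) (v : ℕ → ℝ) :
    (evT P.2 vX).eval v = fn P (ptX P.1 v) := by
  rw [eval_evT]
  refine pev_congr_lt h fun i hi => ?_
  simp [vX, Tm.eval, ext, hi, ptX]

theorem evY_pt {P : ℕ × QP} (h : IsQuartic P) (v : ℕ → ℝ) :
    (evT P.2 vY).eval v = fn P (ptY P.1 v) := by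
  rw [eval_evT]
  refine pev_congr_lt h fun i hi => ?_
  simp [vY, Tm.eval, ext, hi, ptY]

theorem evZ_pt {P : ℕ × QP} (h : IsQuartic P) (v : ℕ → ℝ) :
    (evT P.2 vZ).eval v = fn P (v 0 • ptX P.1 v + v 1 • ptY P.1 v) := by
  rw [eval_evT]
  refine pev_congr_lt h fun i hi => ?_
  rw [ext_comb]
  simp [vZ, vX, vY, Tm.eval, ext, hi, ptX, ptY]

theorem cvx_mem (P : ℕ × QP) (h : IsQuartic P) : ¬ Cvx P ↔ ETR (cvxFm P.2) := by
  unfold Cvx ETR cvxFm
  simp only [holds_conj, baseFm, List.cons_append, List.nil_append, List.forall_mem_cons,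
    Fm.Holds, Tm.eval, List.not_mem_nil, false_imp_iff, implies_true, and_true]
  constructor
  · intro hn
    by_contra hc
    push Not at hc
    refine hn ⟨convex_univ, fun x _ y _ a b ha hb hab => ?_⟩
    have h1 := hc (asg a b x y)
    rw [evX_asg, evY_asg, evZ_asg, asg_zero, asg_one] at h1
    exact h1 ha hb hab
  · rintro ⟨v, h0, h1, h01, hlt⟩ hcv
    rw [evX_pt h, evY_pt h, evZ_pt h] at hlt
    have h2 := hcv.2 (Set.mem_univ (ptX P.1 v)) (Set.mem_univ (ptY P.1 v)) h0 h1 h01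
    simp only [smul_eq_mul] at h2
    linarith

theorem qcvx_mem (P : ℕ × QP) (h : IsQuartic P) : ¬ QCvx P ↔ ETR (qcvxFm P.2) := by
  unfold QCvx ETR qcvxFm
  rw [quasiconvexOn_iff_le_max]
  simp only [holds_conj, baseFm, List.cons_append, List.nil_append, List.forall_mem_cons,
    Fm.Holds, Tm.eval, List.not_mem_nil, false_imp_iff, implies_true, and_true]
  constructor
  · intro hn
    by_contra hc
    push Not at hc
    refine hn ⟨convex_univ, fun x _ y _ a b ha hb hab => ?_⟩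
    have h1 := hc (asg a b x y)
    rw [evX_asg, evY_asg, evZ_asg, asg_zero, asg_one] at h1
    have h2 := h1 ha hb hab
    rw [le_max_iff]
    by_cases h3 : fn P (a • x + b • y) ≤ fn P x
    · exact Or.inl h3
    · exact Or.inr (h2 (not_le.mp h3))
  · rintro ⟨v, h0, h1, h01, hlt1, hlt2⟩ hcv
    rw [evX_pt h, evZ_pt h] at hlt1
    rw [evY_pt h, evZ_pt h] at hlt2
    have h2 := hcv.2 (Set.mem_univ (ptX P.1 v)) (Set.mem_univ (ptY P.1 v)) h0 h1 h01
    rw [le_max_iff] at h2
    rcases h2 with h2 | h2 <;> linarith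

end Pool.Agent.NPC.H549CV
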