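import Pool.Agent.H549R2.CV.W14

namespace Pool.Agent.NPC.H549CV

open Pool.Agent.H625R2 Pool.Agent.NPC.ER Pool.Agent.NPC.ER.Tens Pool.Agent.NPC.H670R2

theorem sum_sq_nonneg (l : List ℕ) (f g : ℕ → ℝ) :
    0 ≤ (l.map fun i => (f i - g i) * (f i - g i)).sum := by
  refine List.sum_nonneg fun a ha => ?_
  obtain ⟨i, _, rfl⟩ := List.mem_map.mp ha
  exact mul_self_nonneg _

theorem sum_sq_pos_iff (l : List ℕ) (f g : ℕ → ℝ) :
    0 < (l.map fun i => (f i - g i) * (f i - g i)).sum ↔ ∃ i ∈ l, f i ≠ g i := by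
  induction l with
  | nil => simp
  | cons i l ih =>
    rw [List.map_cons, List.sum_cons]
    simp only [List.mem_cons, exists_eq_or_imp]
    rw [← ih]
    constructor
    · intro h
      by_cases hi : f i = g i
      · right
        rw [hi, sub_self, mul_zero, zero_add] at h
        exact h
      · exact Or.inl hi
    · rintro (h | h)
      · have h1 : 0 < (f i - g i) * (f i - g i) := mul_self_pos.mpr (sub_ne_zero.mpr h)
        have h2 := sum_sq_nonneg l f g
        linarith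
      · have h1 : 0 ≤ (f i - g i) * (f i - g i) := mul_self_nonneg _
        linarith

theorem eval_neTm (p : QP) (v : ℕ → ℝ) : (neTm p).eval v =
    ((occ p).map fun i => ((vX i).eval v - (vY i).eval v) *
      ((vX i).eval v - (vY i).eval v)).sum := by
  unfold neTm
  rw [eval_sumTm, List.map_map]
  congr 1

theorem neTm_pos_iff (p : QP) (v : ℕ → ℝ) :
    0 < (neTm p).eval v ↔ ∃ i ∈ occ p, (vX i).eval v ≠ (vY i).eval v := by
  rw [eval_neTm]
  exact sum_sq_pos_iff _ _ _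

theorem occ_lt {P : ℕ × QP} (h : IsQuartic P) {i : ℕ} (hi : i ∈ occ P.2) : i < P.1 := by
  unfold occ at hi
  obtain ⟨t, ht, hi2⟩ := List.mem_flatMap.mp hi
  exact (h t ht).2 i hi2

theorem scvx_mem (P : ℕ × QP) (h : IsQuartic P) (ho : ∀ i < P.1, i ∈ occ P.2) :
    ¬ SCvx P ↔ ETR (scvxFm P.2) := by
  unfold SCvx ETR scvxFm
  simp only [holds_conj, List.forall_mem_cons, Fm.Holds, Tm.eval, List.not_mem_nil,
    false_imp_iff, implies_true, and_true, neTm_pos_iff]
  constructor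
  · intro hn
    by_contra hc
    push Not at hc
    refine hn ⟨convex_univ, fun x _ y _ hxy a b ha hb hab => ?_⟩
    have h1 := hc (asg a b x y)
    rw [evX_asg, evY_asg, evZ_asg, asg_zero, asg_one] at h1
    refine h1 ha hb hab ?_
    obtain ⟨i, hi⟩ := Function.ne_iff.mp hxy
    refine ⟨i, ho i i.2, ?_⟩
    simp only [vX, vY, Tm.eval, asg_even, asg_odd]
    simpa [ext] using hi
  · rintro ⟨v, h0, h1, h01, ⟨i, hi, hne⟩, hlt⟩ hcv
    rw [evX_pt h, evY_pt h, evZ_pt h] at hlt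
    have hne2 : ptX P.1 v ≠ ptY P.1 v := by
      intro he
      refine hne ?_
      have h2 := congrFun he ⟨i, occ_lt h hi⟩
      simpa [ptX, ptY, vX, vY, Tm.eval] using h2
    have h2 := hcv.2 (Set.mem_univ (ptX P.1 v)) (Set.mem_univ (ptY P.1 v)) hne2 h0 h1 h01
    simp only [smul_eq_mul] at h2
    linarith

theorem pev_congr_occ (p : QP) {f g : ℕ → ℝ} (hfg : ∀ i ∈ occ p, f i = g i) :
    pev p f = pev p g := by
  unfold pev
  congr 1
  refine List.map_congr_left fun t ht => ?_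
  congr 2
  exact List.map_congr_left fun i hi => hfg i (List.mem_flatMap.mpr ⟨t, ht, hi⟩)

theorem not_scvx_of_unused (P : ℕ × QP) {i : ℕ} (hi : i < P.1) (ho : i ∉ occ P.2) :
    ¬ SCvx P := by
  intro hs
  have key : ∀ c : ℝ, fn P (Pi.single (⟨i, hi⟩ : Fin P.1) c) = fn P 0 := by
    intro c
    refine pev_congr_occ P.2 fun j hj => ?_
    unfold ext
    split_ifs with hj2
    · have hne : (⟨j, hj2⟩ : Fin P.1) ≠ ⟨i, hi⟩ := by
        intro he
        have h3 : j = i := congrArg Fin.val he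
        exact ho (h3 ▸ hj)
      rw [Pi.single_eq_of_ne hne]
      rfl
    · rfl
  have hne : (Pi.single (⟨i, hi⟩ : Fin P.1) (1 : ℝ) : Fin P.1 → ℝ) ≠ 0 := by
    intro he
    have h3 := congrFun he ⟨i, hi⟩
    simp at h3
  have hs' : StrictConvexOn ℝ Set.univ (fn P) := hs
  have ha : (0 : ℝ) < 1 / 2 := by norm_num
  have hab : (1 / 2 : ℝ) + 1 / 2 = 1 := by norm_num
  have h2 := hs'.2 (Set.mem_univ (Pi.single (⟨i, hi⟩ : Fin P.1) (1 : ℝ) : Fin P.1 → ℝ))
    (Set.mem_univ (0 : Fin P.1 → ℝ)) hne ha ha hab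
  have h4 : ((1 / 2 : ℝ) • (Pi.single (⟨i, hi⟩ : Fin P.1) (1 : ℝ) : Fin P.1 → ℝ) +
      (1 / 2 : ℝ) • (0 : Fin P.1 → ℝ)) = Pi.single (⟨i, hi⟩ : Fin P.1) (1 / 2 : ℝ) := by
    rw [smul_zero, add_zero, ← Pi.single_smul]
    simp
  rw [h4, key, key] at h2
  simp only [smul_eq_mul] at h2
  linarith

end Pool.Agent.NPC.H549CV
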