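import Pool.Agent.H549R2.CV.W11
import Pool.Agent.H549R2.CV.W14

namespace Pool.Agent.NPC.H549CV

open Pool.Agent.H625R2 Pool.Agent.NPC.ER Pool.Agent.NPC.ER.Tens Pool.Agent.NPC.H670R2

theorem dpev_congr_lt {P : ℕ × QP} (h : IsQuartic P) {f g f' g' : ℕ → ℝ}
    (hf : ∀ i < P.1, f i = f' i) (hg : ∀ i < P.1, g i = g' i) :
    dpev P.2 f g = dpev P.2 f' g' := by
  unfold dpev
  congr 1
  refine List.map_congr_left fun t ht => ?_
  congr 1
  unfold dprod
  have key : ∀ k < t.2.length, t.2.getD k 0 < P.1 := by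
    intro k hk
    rw [List.getD_eq_getElem _ _ hk]
    exact (h t ht).2 _ (List.getElem_mem hk)
  refine Finset.sum_congr rfl fun k hk => ?_
  rw [hg _ (key k (Finset.mem_range.mp hk))]
  congr 1
  refine Finset.prod_congr rfl fun j hj => ?_
  exact hf _ (key j (Finset.mem_range.mp (Finset.mem_of_mem_erase hj)))

theorem deriv_line (P : ℕ × QP) (x h : Fin P.1 → ℝ) :
    deriv (fun t : ℝ => fn P (x + t • h)) 0 = dpev P.2 (ext x) (ext h) := by
  have h1 := (hasDerivAt_line P x h 0).deriv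
  rw [zero_smul, add_zero] at h1
  exact h1

theorem ext_sub {n : ℕ} (x y : Fin n → ℝ) (i : ℕ) : ext (y - x) i = ext y i - ext x i := by
  unfold ext
  split_ifs with h
  · simp
  · simp

theorem pcvx_mem (P : ℕ × QP) (h : IsQuartic P) : ¬ PCvx P ↔ ETR (pcvxFm P.2) := by
  unfold PCvx ETR pcvxFm
  simp only [holds_conj, List.forall_mem_cons, Fm.Holds, Tm.eval, List.not_mem_nil,
    false_imp_iff, implies_true, and_true, eval_dT, deriv_line]
  constructor
  · intro hn
    push Not at hn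
    obtain ⟨x, y, hlt, hle⟩ := hn
    refine ⟨asg 0 0 x y, ?_, ?_⟩
    · rw [evX_asg, evY_asg]
      exact hlt
    · refine hle.trans (le_of_eq (dpev_congr_lt h (fun i _ => ?_) (fun i _ => ?_)))
      · simp only [vX, Tm.eval, asg_even]
      · rw [ext_sub]
        simp only [vX, vY, Tm.eval, asg_even, asg_odd]
        ring
  · rintro ⟨v, hlt, hle⟩ hp
    rw [evX_pt h, evY_pt h] at hlt
    have h1 := hp _ _ hlt
    refine absurd h1 (not_lt.mpr (hle.trans (le_of_eq ?_)))
    refine dpev_congr_lt h (fun i hi => ?_) (fun i hi => ?_)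
    · simp [vX, Tm.eval, ext, hi, ptX]
    · rw [ext_sub]
      simp [vX, vY, Tm.eval, ext, hi, ptX, ptY]
      ring

end Pool.Agent.NPC.H549CV
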