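import Pool.Agent.H549R2.CV.W8

namespace Pool.Agent.NPC.H549CV

open Pool.Agent.H625R2 Pool.Agent.NPC.ER Pool.Agent.NPC.ER.Tens Pool.Agent.NPC.H670R2

theorem W17_pev_append (p q : QP) (x : ℕ → ℝ) : pev (p ++ q) x = pev p x + pev q x := by
  unfold pev
  rw [List.map_append, List.sum_append]

theorem W17_pev_sq (n : ℕ) (x : ℕ → ℝ) :
    pev ((List.range n).map fun i => ((1 : ℤ), [i, i])) x = ∑ i ∈ Finset.range n, x i ^ 2 := by
  induction n with
  | zero => simp [pev]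
  | succ n ih =>
    rw [List.range_succ, List.map_append, W17_pev_append, ih, Finset.sum_range_succ]
    congr 1
    simp [pev, sq]

/-- the value of the polynomial of the second reduction -/
theorem fn_redPS (S : List Con) (x : Fin (redPS S).1 → ℝ) :
    fn (redPS S) x = fn (redP S) x + ∑ i, x i ^ 2 := by
  have h1 : fn (redPS S) x = pev ((redP S).2 ++ (List.range (redP S).1).map fun i => (1, [i, i]))
    (ext x) := rfl
  rw [h1, W17_pev_append, W17_pev_sq]
  have h2 : fn (redP S) x = pev (redP S).2 (ext x) := rfl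
  rw [h2]
  congr 1
  have h3 : (∑ i, x i ^ 2) = ∑ i : Fin (redP S).1, (fun i : Fin (redP S).1 => x i ^ 2) i := rfl
  rw [h3, Finset.sum_range]
  refine Finset.sum_congr rfl fun i _ => ?_
  have h4 : ext x (i : ℕ) = x i := by
    unfold ext
    exact dif_pos i.2
  rw [h4]

theorem isQuartic_redPS (S : List Con) : IsQuartic (redPS S) := by
  intro t ht
  have ht' : t ∈ (redP S).2 ++ (List.range (redP S).1).map fun i => ((1 : ℤ), [i, i]) := ht
  rcases List.mem_append.1 ht' with h | h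
  · have h1 := isForm_mkP (N := redN S) (F := redF S) (redC S : ℤ) (redG S : ℤ) (redF_idx S) t h
    exact ⟨h1.1.le, h1.2⟩
  · obtain ⟨i, hi, rfl⟩ := List.mem_map.1 h
    refine ⟨by simp, fun j hj => ?_⟩
    have hj' : j = i := by simpa using hj
    subst hj'
    exact List.mem_range.1 hi

theorem W17_norm {n : ℕ} (z : Fin n → ℝ) : ‖z‖ ^ 2 ≤ ∑ i, z i ^ 2 := by
  have h0 : 0 ≤ ∑ i, z i ^ 2 := Finset.sum_nonneg fun i _ => sq_nonneg _
  have h1 : ‖z‖ ≤ Real.sqrt (∑ i, z i ^ 2) := by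
    rw [pi_norm_le_iff_of_nonneg (Real.sqrt_nonneg _)]
    intro i
    rw [Real.norm_eq_abs]
    exact Real.abs_le_sqrt
      (Finset.single_le_sum (f := fun i => z i ^ 2) (fun i _ => sq_nonneg _) (Finset.mem_univ i))
  calc ‖z‖ ^ 2 ≤ Real.sqrt (∑ i, z i ^ 2) ^ 2 := pow_le_pow_left₀ (norm_nonneg _) h1 2
    _ = ∑ i, z i ^ 2 := Real.sq_sqrt h0

theorem W17_sum {n : ℕ} (x y : Fin n → ℝ) {a b : ℝ} (hab : a + b = 1) :
    (∑ i, (a • x + b • y) i ^ 2) = a * (∑ i, x i ^ 2) + b * (∑ i, y i ^ 2) -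
      a * b * ∑ i, (x - y) i ^ 2 := by
  rw [Finset.mul_sum, Finset.mul_sum, Finset.mul_sum, ← Finset.sum_add_distrib,
    ← Finset.sum_sub_distrib]
  refine Finset.sum_congr rfl fun i _ => ?_
  simp only [Pi.add_apply, Pi.smul_apply, Pi.sub_apply, smul_eq_mul]
  have hb : b = 1 - a := by linarith
  subst hb
  ring

theorem unsat_str (S : List Con) (h : ¬ Sat S) : StrCvx (redPS S) := by
  refine ⟨2, two_pos, convex_univ, ?_⟩
  intro x _ y _ a b ha hb hab
  have h1 : fn (redP S) (a • x + b • y) ≤ a • fn (redP S) x + b • fn (redP S) y :=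
    (unsat_scvx S h).convexOn.2 (Set.mem_univ _) (Set.mem_univ _) ha hb hab
  rw [fn_redPS, fn_redPS, fn_redPS, W17_sum x y hab]
  have h2 := W17_norm (x - y)
  have h3 : a * b * ‖x - y‖ ^ 2 ≤ a * b * ∑ i, (x - y) i ^ 2 :=
    mul_le_mul_of_nonneg_left h2 (mul_nonneg ha hb)
  simp only [smul_eq_mul] at h1 ⊢
  have h4 : a * b * (2 / 2 * ‖x - y‖ ^ 2) = a * b * ‖x - y‖ ^ 2 := by ring
  rw [h4]
  linarith

end Pool.Agent.NPC.H549CV
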