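import Pool.Agent.H549R2.CV.W10
import Pool.Agent.H549R2.CV.W17

namespace Pool.Agent.NPC.H549CV

open Pool.Agent.H625R2 Pool.Agent.NPC.ER Pool.Agent.NPC.ER.Tens Pool.Agent.NPC.H670R2

theorem bval_scale_left (b : List (Bool × ℕ × ℕ)) (v w : ℕ → ℝ) (r : ℝ) :
    bval b (fun i => r * v i) w = r * bval b v w := by
  induction b with
  | nil => simp
  | cons m b ih => rw [bval_cons, bval_cons, ih]; ring

theorem SS_scale_left (F : List (List (Bool × ℕ × ℕ))) (v w : ℕ → ℝ) (r : ℝ) :
    SS F (fun i => r * v i) w = r ^ 2 * SS F v w := by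
  induction F with
  | nil => simp [SS_nil]
  | cons b F ih => rw [SS_cons, SS_cons, ih, bval_scale_left]; ring

theorem bq_scale_left (C : ℝ) (N : ℕ) (F : List (List (Bool × ℕ × ℕ))) (v w : ℕ → ℝ) (r : ℝ) :
    bq C N F (fun i => r * v i) w = r ^ 2 * bq C N F v w := by
  unfold bq
  rw [SS_scale_left, inn_scale]
  ring

/-- the second part of the sum of the squares -/
noncomputable def sqB (S : List Con) (w : ℕ → ℝ) : ℝ :=
  ∑ i : Fin (redP S).1, if (i : ℕ) < redN S then 0 else w (i - redN S) ^ 2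

/-- the first part of the sum of the squares -/
noncomputable def sqA (S : List Con) (v : ℕ → ℝ) : ℝ :=
  ∑ i : Fin (redP S).1, if (i : ℕ) < redN S then v i ^ 2 else 0

theorem sum_sq_pt (S : List Con) (v w : ℕ → ℝ) (c : ℝ) :
    ∑ i, pt S v w c i ^ 2 = sqA S v + c ^ 2 * sqB S w := by
  unfold sqA sqB
  rw [Finset.mul_sum, ← Finset.sum_add_distrib]
  refine Finset.sum_congr rfl fun i _ => ?_
  unfold pt
  split_ifs
  · ring
  · ring

/-- the point with coordinates `v` and `c w` -/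
def ptS (S : List Con) (v w : ℕ → ℝ) (c : ℝ) : Fin (redPS S).1 → ℝ :=
  fun i => if (i : ℕ) < redN S then v i else c * w (i - redN S)

theorem fn_ptS (S : List Con) (v w : ℕ → ℝ) (c : ℝ) :
    fn (redPS S) (ptS S v w c) =
      GG (redC S : ℝ) (redG S : ℝ) (redN S) (redF S) v (fun i => c * w i) +
        (sqA S v + c ^ 2 * sqB S w) := by
  have h := fn_redPS S (ptS S v w c)
  have h1 := fn_pt S v w c
  have h2 := sum_sq_pt S v w c
  exact h.trans (congrArg₂ (· + ·) h1 h2)

theorem ptS_mid (S : List Con) (v w : ℕ → ℝ) (r : ℝ) :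
    (1 / 2 : ℝ) • ptS S v w r + (1 / 2 : ℝ) • ptS S v w (-r) = ptS S v w 0 := by
  funext i
  simp only [Pi.add_apply, Pi.smul_apply, smul_eq_mul, ptS]
  split_ifs
  · ring
  · ring

theorem sat_not_cvxS (S : List Con) (h : Sat S) : ¬ Cvx (redPS S) := by
  rw [sat_iff] at h
  obtain ⟨v, w, hvw⟩ := h
  intro hc
  have key : ∀ L : ℝ, 0 ≤ L ^ 2 * bq (redC S : ℝ) (redN S) (redF S) v w +
      ((redG S : ℝ) * inn (redN S) w w ^ 2 + sqB S w) := by
    intro L
    have h3 := hc.2 (Set.mem_univ (ptS S (fun i => L * v i) w 1))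
      (Set.mem_univ (ptS S (fun i => L * v i) w (-1))) (show (0 : ℝ) ≤ 1 / 2 by norm_num)
      (show (0 : ℝ) ≤ 1 / 2 by norm_num) (by norm_num)
    rw [ptS_mid, fn_ptS, fn_ptS, fn_ptS, GG_line, GG_line, GG_line, bq_scale_left] at h3
    simp only [smul_eq_mul] at h3
    generalize bq (redC S : ℝ) (redN S) (redF S) v w = q at *
    generalize (redG S : ℝ) * inn (redN S) w w ^ 2 = K at *
    generalize (redG S : ℝ) * inn (redN S) (fun i => L * v i) (fun i => L * v i) ^ 2 = J at *
    generalize sqB S w = B at *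
    generalize sqA S (fun i => L * v i) = A at *
    linarith
  generalize bq (redC S : ℝ) (redN S) (redF S) v w = q at *
  generalize (redG S : ℝ) * inn (redN S) w w ^ 2 + sqB S w = M at *
  have hq0 : 0 < -q := by linarith
  have h2 := key (√((|M| + 1) / -q))
  have h3 : √((|M| + 1) / -q) ^ 2 = (|M| + 1) / -q := Real.sq_sqrt (by positivity)
  rw [h3] at h2
  have h4 : (|M| + 1) / -q * q = -(|M| + 1) := by
    have : q ≠ 0 := by
      intro h0
      rw [h0] at hq0
      simp at hq0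
    field_simp
  rw [h4] at h2
  have h5 := le_abs_self M
  linarith

theorem cvx_of_str (P : ℕ × QP) (h : StrCvx P) : Cvx P := by
  obtain ⟨m, hm, hs⟩ := h
  refine ⟨convex_univ, fun x hx y hy a b ha hb hab => ?_⟩
  have h1 := hs.2 hx hy ha hb hab
  have h2 : 0 ≤ a * b * (m / 2 * ‖x - y‖ ^ 2) := by positivity
  linarith

end Pool.Agent.NPC.H549CV
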