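import Pool.Agent.H549R2.CV.W11

namespace Pool.Agent.NPC.H549CV

open Pool.Agent.H625R2 Pool.Agent.NPC.ER Pool.Agent.NPC.ER.Tens Pool.Agent.NPC.H670R2

theorem pcvx_of_cvx (P : ℕ × QP) (h : Cvx P) : PCvx P := by
  intro x y hxy
  have hd := hasDerivAt_line P x (y - x) 0
  have hphi : ConvexOn ℝ Set.univ (fun t : ℝ => fn P (x + t • (y - x))) := by
    refine ⟨convex_univ, ?_⟩
    intro s _ t _ a b ha hb hab
    have h1 : x + (a • s + b • t) • (y - x) = a • (x + s • (y - x)) + b • (x + t • (y - x)) := by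
      have h2 : x = (a + b) • x := by rw [hab, one_smul]
      nth_rewrite 1 [h2]
      simp only [smul_eq_mul]
      module
    simp only
    rw [h1]
    exact h.2 (Set.mem_univ _) (Set.mem_univ _) ha hb hab
  have hs := hphi.le_slope_of_hasDerivAt (Set.mem_univ 0) (Set.mem_univ 1) one_pos hd
  rw [hd.deriv]
  refine lt_of_le_of_lt hs ?_
  rw [slope_def_field]
  simp only [zero_smul, one_smul, add_zero, sub_zero, div_one, add_sub_cancel]
  linarith

end Pool.Agent.NPC.H549CV
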