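import Pool.Agent.H549R2.CV.W6
import Pool.Agent.H549R2.CV.W9
import Pool.Agent.H549R2.CV.W10
import Pool.Agent.H549R2.CV.W13
import Pool.Agent.H549R2.CV.W14
import Pool.Agent.H549R2.CV.W15
import Pool.Agent.H549R2.CV.W16
import Pool.Agent.H549R2.CV.W18

/-!
# Convexity of quartic polynomials: all parts
-/
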