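import Pool.Agent.H625R2.Mem
import Mathlib.Analysis.Convex.Quasiconvex
import Mathlib.Analysis.Convex.Strong

/-!
# Convexity of quartic polynomials: definitions
-/

namespace Pool.Agent.NPC.H549CV

open Pool.Agent.H625R2 Pool.Agent.NPC.ER Pool.Agent.NPC.ER.Tens Pool.Agent.NPC.H670R2

/-- Polynomials with integer coefficients are written as lists of terms, each term is an integer
coefficient together with the list of the indices of its variables. -/
abbrev QP : Type := List (ℤ × List ℕ)

/-- the value of a polynomial -/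
def pev (p : QP) (x : ℕ → ℝ) : ℝ := (p.map fun t => (t.1 : ℝ) * (t.2.map x).prod).sum

/-- extension of a vector by zeros -/
def ext {n : ℕ} (x : Fin n → ℝ) (i : ℕ) : ℝ := if h : i < n then x ⟨i, h⟩ else 0

/-- An instance `P = (n, p)` describes a function on `ℝ ^ n`. -/
def fn (P : ℕ × QP) (x : Fin P.1 → ℝ) : ℝ := pev P.2 (ext x)

/-- polynomials of degree at most four in the variables `0, ..., n - 1` -/
def IsQuartic (P : ℕ × QP) : Prop := ∀ t ∈ P.2, t.2.length ≤ 4 ∧ ∀ i ∈ t.2, i < P.1

/-- homogeneous polynomials of degree four in the variables `0, ..., n - 1` -/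
def IsForm (P : ℕ × QP) : Prop := ∀ t ∈ P.2, t.2.length = 4 ∧ ∀ i ∈ t.2, i < P.1

/-- convex -/
def Cvx (P : ℕ × QP) : Prop := ConvexOn ℝ Set.univ (fn P)

/-- strictly convex -/
def SCvx (P : ℕ × QP) : Prop := StrictConvexOn ℝ Set.univ (fn P)

/-- quasiconvex: all sublevel sets are convex -/
def QCvx (P : ℕ × QP) : Prop := QuasiconvexOn ℝ Set.univ (fn P)

/-- pseudoconvex: `f y < f x` implies that the derivative at `x` in the direction `y - x` is
negative -/
def PCvx (P : ℕ × QP) : Prop := ∀ x y : Fin P.1 → ℝ, fn P y < fn P x →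
  deriv (fun t : ℝ => fn P (x + t • (y - x))) 0 < 0

/-- strongly convex -/
def StrCvx (P : ℕ × QP) : Prop := ∃ m : ℝ, 0 < m ∧ StrongConvexOn Set.univ m (fn P)

section Form

/-- the biquadratic form `C |v|² |w|² - ∑ b (v, w)²` -/
def bq (C : ℝ) (N : ℕ) (F : List (List (Bool × ℕ × ℕ))) (v w : ℕ → ℝ) : ℝ :=
  C * (inn N v v * inn N w w) - SS F v w

/-- the sum of the squares of the numbers of monomials of the forms -/
def lsq (F : List (List (Bool × ℕ × ℕ))) : ℕ := (F.map fun b => b.length ^ 2).sum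

/-- the quartic form `bq + Γ (|v|⁴ + |w|⁴)` -/
def GG (C Γ : ℝ) (N : ℕ) (F : List (List (Bool × ℕ × ℕ))) (v w : ℕ → ℝ) : ℝ :=
  bq C N F v w + Γ * (inn N v v ^ 2 + inn N w w ^ 2)

/-- the coefficient of `t²` in `GG (v + t u, w + t s)` -/
def c2 (C Γ : ℝ) (N : ℕ) (F : List (List (Bool × ℕ × ℕ))) (v w u s : ℕ → ℝ) : ℝ :=
  C * (inn N u u * inn N w w + inn N v v * inn N s s + 4 * (inn N v u * inn N w s)) -
    (F.map fun b => (bval b u w + bval b v s) ^ 2 + 2 * (bval b v w * bval b u s)).sum +
    Γ * (2 * (inn N v v * inn N u u) + 4 * inn N v u ^ 2 + 2 * (inn N w w * inn N s s) +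
      4 * inn N w s ^ 2)

/-- derivative of a product of variables -/
def dprod (x h : ℕ → ℝ) (l : List ℕ) : ℝ := ∑ k ∈ Finset.range l.length,
  h (l.getD k 0) * ∏ j ∈ (Finset.range l.length).erase k, x (l.getD j 0)

/-- the directional derivative of a polynomial -/
def dpev (p : QP) (x h : ℕ → ℝ) : ℝ := (p.map fun t => (t.1 : ℝ) * dprod x h t.2).sum

end Form

section Reduction

/-- sign as an integer -/
def sgnZ (b : Bool) : ℤ := if b then -1 else 1

/-- the terms of `C |v|² |w|²`, the variables `v` are `0, ..., N - 1` and `w` are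
`N, ..., 2 N - 1` -/
def termsA (C : ℤ) (N : ℕ) : QP := (pairs N).map fun p => (C, [p.1, p.1, N + p.2, N + p.2])

/-- the terms of `- b (v, w)²` -/
def termsB (N : ℕ) (b : List (Bool × ℕ × ℕ)) : QP :=
  b.flatMap fun m => b.map fun m' =>
    (-(sgnZ m.1 * sgnZ m'.1), [m.2.1, N + m.2.2, m'.2.1, N + m'.2.2])

/-- the terms of `Γ |v|⁴`, the variables are `s, ..., s + N - 1` -/
def termsD (Γ : ℤ) (N s : ℕ) : QP := (pairs N).map fun p => (Γ, [s + p.1, s + p.1, s + p.2, s + p.2])

/-- the quartic form as an instance -/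
def mkP (C Γ : ℤ) (N : ℕ) (F : List (List (Bool × ℕ × ℕ))) : ℕ × QP :=
  (2 * N, termsA C N ++ F.flatMap (termsB N) ++ (termsD Γ N 0 ++ termsD Γ N N))

/-- the constant of the reduction -/
noncomputable def redC (S : List Con) : ℕ := (4 * (rl (redQ S)).length + 5) ^ 2

/-- the other constant of the reduction -/
noncomputable def redG (S : List Con) : ℕ := redC S + lsq (redF S) + 1

/-- the reduction -/
noncomputable def redP (S : List Con) : ℕ × QP :=
  mkP (redC S : ℤ) (redG S : ℤ) (redN S) (redF S)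

/-- the reduction for strong convexity: the sum of the squares of the variables is added -/
noncomputable def redPS (S : List Con) : ℕ × QP :=
  ((redP S).1, (redP S).2 ++ (List.range (redP S).1).map fun i => (1, [i, i]))

end Reduction

section Membership

/-- product of a list of terms -/
def prodTm (l : List Tm) : Tm := l.foldr Tm.mul Tm.one

/-- the polynomial as a term, with terms for the variables -/
def evT (p : QP) (V : ℕ → Tm) : Tm :=
  sumTm (p.map fun t => Tm.mul (intTm t.1) (prodTm (t.2.map V)))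

/-- test for quartic polynomials -/
def quarB (P : ℕ × QP) : Bool :=
  P.2.all fun t => decide (t.2.length ≤ 4) && t.2.all fun i => decide (i < P.1)

/-- test for quartic forms -/
def formB (P : ℕ × QP) : Bool :=
  P.2.all fun t => decide (t.2.length = 4) && t.2.all fun i => decide (i < P.1)

/-- variables for a point `x` -/
def vX (i : ℕ) : Tm := Tm.var (2 * i + 2)

/-- variables for a point `y` -/
def vY (i : ℕ) : Tm := Tm.var (2 * i + 3)

/-- the coordinates of `a x + b y`, with variables `0` and `1` for `a` and `b` -/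
def vZ (i : ℕ) : Tm := Tm.add (Tm.mul (Tm.var 0) (vX i)) (Tm.mul (Tm.var 1) (vY i))

/-- `0 ≤ a`, `0 ≤ b`, `a + b = 1` -/
def baseFm : List Fm :=
  [Fm.le Tm.zero (Tm.var 0), Fm.le Tm.zero (Tm.var 1), Fm.eq (Tm.add (Tm.var 0) (Tm.var 1)) Tm.one]

/-- not convex -/
def cvxFm (p : QP) : Fm := conj (baseFm ++ [Fm.lt
  (Tm.add (Tm.mul (Tm.var 0) (evT p vX)) (Tm.mul (Tm.var 1) (evT p vY))) (evT p vZ)])

/-- not quasiconvex -/
def qcvxFm (p : QP) : Fm :=
  conj (baseFm ++ [Fm.lt (evT p vX) (evT p vZ), Fm.lt (evT p vY) (evT p vZ)])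

/-- all occurrences of variables -/
def occ (p : QP) : List ℕ := p.flatMap fun t => t.2

/-- `x ≠ y` on the variables that occur -/
def neTm (p : QP) : Tm := sumTm ((occ p).map fun i =>
  Tm.mul (Tm.add (vX i) (Tm.neg (vY i))) (Tm.add (vX i) (Tm.neg (vY i))))

/-- do all the variables `0, ..., n - 1` occur? -/
def allOcc (P : ℕ × QP) : Bool := (List.range ((occ P.2).length + 1)).all fun i =>
  !(decide (i < P.1)) || (occ P.2).any fun j => decide (j = i)

/-- not strictly convex, when all variables occur -/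
def scvxFm (p : QP) : Fm := conj [Fm.lt Tm.zero (Tm.var 0), Fm.lt Tm.zero (Tm.var 1),
  Fm.eq (Tm.add (Tm.var 0) (Tm.var 1)) Tm.one, Fm.lt Tm.zero (neTm p),
  Fm.le (Tm.add (Tm.mul (Tm.var 0) (evT p vX)) (Tm.mul (Tm.var 1) (evT p vY))) (evT p vZ)]

/-- the derivative of a product of variables, as a term -/
def dProd (V H : ℕ → Tm) (l : List ℕ) : Tm :=
  sumTm ((List.range l.length).map fun k => Tm.mul (H (l.getD k 0))
    (prodTm (((List.range l.length).filter fun j => decide (j ≠ k)).map fun j => V (l.getD j 0))))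

/-- the directional derivative of the polynomial as a term -/
def dT (p : QP) (V H : ℕ → Tm) : Tm :=
  sumTm (p.map fun t => Tm.mul (intTm t.1) (dProd V H t.2))

/-- not pseudoconvex -/
def pcvxFm (p : QP) : Fm := conj [Fm.lt (evT p vY) (evT p vX),
  Fm.le Tm.zero (dT p vX (fun i => Tm.add (vY i) (Tm.neg (vX i))))]

end Membership

end Pool.Agent.NPC.H549CV
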