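import Pool.Agent.H549R2.CV.All
import Pool.Agent.H622R2.CoNP

/-!
# Convexity of quartic polynomials is `∀ℝ`-complete
-/

namespace Pool.Agent.NPC.H549CV

open Pool.Agent.H625R2 Pool.Agent.NPC.ER Pool.Agent.NPC.ER.Tens Pool.Agent.NPC.H670R2

theorem unsat_cvx (S : List Con) (h : ¬ Sat S) : Cvx (redP S) := (unsat_scvx S h).convexOn

theorem unsat_qcvx (S : List Con) (h : ¬ Sat S) : QCvx (redP S) := (unsat_cvx S h).quasiconvexOn

theorem unsat_pcvx (S : List Con) (h : ¬ Sat S) : PCvx (redP S) := pcvx_of_cvx _ (unsat_cvx S h)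

theorem isForm_redP (S : List Con) : IsForm (redP S) := isForm_mkP _ _ (redF_idx S)

theorem isQuartic_of_isForm {P : ℕ × QP} (h : IsForm P) : IsQuartic P :=
  fun t ht => ⟨(h t ht).1.le, (h t ht).2⟩

/-- the four notions with the tests on the instance -/
theorem sat_iff_not (S : List Con) :
    (¬ Sat S ↔ Cvx (redP S)) ∧ (¬ Sat S ↔ SCvx (redP S)) ∧ (¬ Sat S ↔ QCvx (redP S)) ∧
      (¬ Sat S ↔ PCvx (redP S)) := by
  refine ⟨⟨unsat_cvx S, fun h hs => sat_not_qcvx S hs h.quasiconvexOn⟩,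
    ⟨unsat_scvx S, fun h hs => sat_not_qcvx S hs h.convexOn.quasiconvexOn⟩,
    ⟨unsat_qcvx S, fun h hs => sat_not_qcvx S hs h⟩,
    ⟨unsat_pcvx S, fun h hs => sat_not_pcvx S hs h⟩⟩

section Complete

variable {D Q : ℕ × QP → Prop} {DB : ℕ × QP → Bool} {φ : ℕ × QP → Fm}

/-- completeness for `∀ℝ` -/
theorem arComplete (hDB : ∀ P, DB P = true ↔ D P) (hDp : Poly DB) (hφ : Poly φ)
    (hm : ∀ P, D P → (¬ Q P ↔ ETR (φ P))) (hD : ∀ S, D (redP S))
    (hQ : ∀ S, ¬ Sat S ↔ Q (redP S)) : ARComplete (lang fun P => D P ∧ Q P) := by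
  refine ⟨InAR.of_poly (φ := fun P => if DB P = true then φ P else tt)
    (Poly.ite (Poly.decide_bool hDp) hφ (Poly.const _)) fun P => ?_,
    ARHard.of_sys redP_poly fun S => ?_⟩
  · by_cases h : DB P = true
    · rw [if_pos h, ← hm P ((hDB P).1 h)]
      have := (hDB P).1 h
      tauto
    · rw [if_neg h]
      have h2 : ¬ D P := fun h' => h ((hDB P).2 h')
      constructor
      · intro _; exact ⟨fun _ => 0, holds_tt _⟩
      · intro _ h'; exact h2 h'.1
  · rw [hQ S]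
    exact ⟨fun h => ⟨hD S, h⟩, fun h => h.2⟩

/-- completeness for `∃ℝ` of the negation -/
theorem erComplete (hDB : ∀ P, DB P = true ↔ D P) (hDp : Poly DB) (hφ : Poly φ)
    (hm : ∀ P, D P → (¬ Q P ↔ ETR (φ P))) (hD : ∀ S, D (redP S))
    (hQ : ∀ S, ¬ Sat S ↔ Q (redP S)) : ERComplete (lang fun P => D P ∧ ¬ Q P) := by
  refine ⟨InER.of_poly (φ := fun P => if DB P = true then φ P else ff)
    (Poly.ite (Poly.decide_bool hDp) hφ (Poly.const _)) fun P => ?_,
    ERHard.of_sys redP_poly fun S => ?_⟩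
  · by_cases h : DB P = true
    · rw [if_pos h, ← hm P ((hDB P).1 h)]
      have := (hDB P).1 h
      tauto
    · rw [if_neg h]
      have h2 : ¬ D P := fun h' => h ((hDB P).2 h')
      constructor
      · intro h'; exact absurd h'.1 h2
      · rintro ⟨x, hx⟩; exact absurd hx (holds_ff x)
  · have h : Sat S ↔ ¬ Q (redP S) := by rw [← hQ S, not_not]
    rw [h]
    exact ⟨fun h => ⟨hD S, h⟩, fun h => h.2⟩

/-- both statements -/
theorem complete (hDB : ∀ P, DB P = true ↔ D P) (hDp : Poly DB) (hφ : Poly φ)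
    (hm : ∀ P, D P → (¬ Q P ↔ ETR (φ P))) (hD : ∀ S, D (redP S))
    (hQ : ∀ S, ¬ Sat S ↔ Q (redP S)) : ARComplete (lang fun P => D P ∧ Q P) ∧
      ERComplete (lang fun P => D P ∧ ¬ Q P) :=
  ⟨arComplete hDB hDp hφ hm hD hQ, erComplete hDB hDp hφ hm hD hQ⟩

end Complete

/-- the formula for strict convexity -/
def scvxFm' (P : ℕ × QP) : Fm := if allOcc P = true then scvxFm P.2 else tt

theorem scvxFm'_poly : Poly scvxFm' :=
  Poly.ite (Poly.decide_bool allOcc_poly) (scvxFm_poly.comp (Poly.snd Poly.id)) (Poly.const _)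

theorem scvx_mem' (P : ℕ × QP) (h : IsQuartic P) : ¬ SCvx P ↔ ETR (scvxFm' P) := by
  unfold scvxFm'
  by_cases ho : allOcc P = true
  · rw [if_pos ho]
    exact scvx_mem P h ((allOcc_iff P).1 ho)
  · rw [if_neg ho]
    rw [allOcc_iff] at ho
    push Not at ho
    obtain ⟨i, hi, hi2⟩ := ho
    exact ⟨fun _ => ⟨fun _ => 0, holds_tt _⟩, fun _ => not_scvx_of_unused P hi hi2⟩

section Final

theorem cvx_complete (D : ℕ × QP → Prop) (DB : ℕ × QP → Bool) (hDB : ∀ P, DB P = true ↔ D P)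
    (hDp : Poly DB) (hD : ∀ S, D (redP S)) (hq : ∀ P, D P → IsQuartic P) :
    ∀ Q ∈ [Cvx, SCvx, QCvx, PCvx], ARComplete (lang fun P => D P ∧ Q P) ∧
      ERComplete (lang fun P => D P ∧ ¬ Q P) := by
  intro Q hQ
  simp only [List.mem_cons, List.not_mem_nil, or_false] at hQ
  rcases hQ with rfl | rfl | rfl | rfl
  · exact complete hDB hDp (cvxFm_poly.comp (Poly.snd Poly.id)) (fun P h => cvx_mem P (hq P h)) hD
      (fun S => (sat_iff_not S).1)
  · exact complete hDB hDp scvxFm'_poly (fun P h => scvx_mem' P (hq P h)) hD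
      (fun S => (sat_iff_not S).2.1)
  · exact complete hDB hDp (qcvxFm_poly.comp (Poly.snd Poly.id)) (fun P h => qcvx_mem P (hq P h)) hD
      (fun S => (sat_iff_not S).2.2.1)
  · exact complete hDB hDp (pcvxFm_poly.comp (Poly.snd Poly.id)) (fun P h => pcvx_mem P (hq P h)) hD
      (fun S => (sat_iff_not S).2.2.2)

theorem quartic_complete : ∀ Q ∈ [Cvx, SCvx, QCvx, PCvx],
    ARComplete (lang fun P => IsQuartic P ∧ Q P) ∧ ERComplete (lang fun P => IsQuartic P ∧ ¬ Q P) :=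
  cvx_complete IsQuartic quarB quarB_iff quarB_poly (fun S => isQuartic_of_isForm (isForm_redP S))
    (fun _ h => h)

theorem form_complete : ∀ Q ∈ [Cvx, SCvx, QCvx, PCvx],
    ARComplete (lang fun P => IsForm P ∧ Q P) ∧ ERComplete (lang fun P => IsForm P ∧ ¬ Q P) :=
  cvx_complete IsForm formB formB_iff formB_poly isForm_redP (fun _ h => isQuartic_of_isForm h)

theorem str_iff_not (S : List Con) : ¬ Sat S ↔ IsQuartic (redPS S) ∧ StrCvx (redPS S) :=
  ⟨fun h => ⟨isQuartic_redPS S, unsat_str S h⟩,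
    fun h hs => sat_not_cvxS S hs (cvx_of_str _ h.2)⟩

theorem str_hard : ARHard (lang fun P => IsQuartic P ∧ StrCvx P) :=
  ARHard.of_sys redPS_poly str_iff_not

/-- `∃ℝ = NP` iff an `∃ℝ`-complete language is in `NP` -/
theorem np_iff {L : Set (List Bool)} (h : ERComplete L) :
    (∀ L' : Set (List Bool), InER L' → InNP L') ↔ InNP L :=
  ⟨fun h' => h' L h.1, fun h' L' hL' => Pool.Agent.H622R2.InNP.of_reduces (h.2 L' hL') h'⟩

end Final

end Pool.Agent.NPC.H549CV
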