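import Pool.Agent.H549R2.CV.Defs

namespace Pool.Agent.NPC.H549CV

open Pool.Agent.H625R2 Pool.Agent.NPC.ER Pool.Agent.NPC.ER.Tens Pool.Agent.NPC.H670R2

variable {C Γ : ℝ} {N : ℕ} {F : List (List (Bool × ℕ × ℕ))}

theorem bval_abs_le (b : List (Bool × ℕ × ℕ)) (hb : ∀ m ∈ b, m.2.1 < N ∧ m.2.2 < N)
    (v w : ℕ → ℝ) : |bval b v w| ≤ b.length * (√(inn N v v) * √(inn N w w)) := by
  induction b with
  | nil => simp
  | cons m b ih =>
    have h1 := ih (fun m' hm' => hb m' (List.mem_cons_of_mem _ hm'))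
    obtain ⟨h2, h3⟩ := hb m (by simp)
    rw [bval_cons, List.length_cons]
    have h4 := abs_le_sqrt_inn v h2
    have h5 := abs_le_sqrt_inn w h3
    have h6 : |sgn m.1 * (v m.2.1 * w m.2.2)| ≤ √(inn N v v) * √(inn N w w) := by
      rw [abs_mul, abs_sgn, one_mul, abs_mul]
      exact mul_le_mul h4 h5 (abs_nonneg _) (Real.sqrt_nonneg _)
    have h7 := abs_add_le (sgn m.1 * (v m.2.1 * w m.2.2)) (bval b v w)
    push_cast
    linarith

theorem inn_abs_le (v u : ℕ → ℝ) : |inn N v u| ≤ √(inn N v v) * √(inn N u u) := by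
  have h1 : inn N v u ^ 2 ≤ inn N v v * inn N u u := by
    have := Finset.sum_mul_sq_le_sq_mul_sq (Finset.range N) v u
    unfold inn
    simpa [sq] using this
  have h2 : |inn N v u| = √(inn N v u ^ 2) := (Real.sqrt_sq_eq_abs _).symm
  rw [h2, ← Real.sqrt_mul (inn_nonneg N v)]
  exact Real.sqrt_le_sqrt h1

theorem mul_le_half (x y A B p q : ℝ) (hp : |x| ≤ p) (hq : |y| ≤ q) (h : p * q ≤ (A + B) / 2) :
    |x * y| ≤ (A + B) / 2 := by
  rw [abs_mul]
  exact (mul_le_mul hp hq (abs_nonneg _) ((abs_nonneg _).trans hp)).trans h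

theorem c2_nonneg (hF : ∀ b ∈ F, ∀ m ∈ b, m.2.1 < N ∧ m.2.2 < N) (hC : 0 ≤ C)
    (hΓ : C + lsq F ≤ Γ) (hpos : ∀ v w, 0 ≤ bq C N F v w) (v w u s : ℕ → ℝ) :
    0 ≤ c2 C Γ N F v w u s := by
  set α := √(inn N v v) with hα
  set β := √(inn N u u) with hβ
  set γ := √(inn N w w) with hγ
  set δ := √(inn N s s) with hδ
  have a1 : α ^ 2 = inn N v v := Real.sq_sqrt (inn_nonneg N v)
  have b1 : β ^ 2 = inn N u u := Real.sq_sqrt (inn_nonneg N u)
  have g1 : γ ^ 2 = inn N w w := Real.sq_sqrt (inn_nonneg N w)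
  have d1 : δ ^ 2 = inn N s s := Real.sq_sqrt (inn_nonneg N s)
  have a0 : 0 ≤ α := Real.sqrt_nonneg _
  have b0 : 0 ≤ β := Real.sqrt_nonneg _
  have g0 : 0 ≤ γ := Real.sqrt_nonneg _
  have d0 : 0 ≤ δ := Real.sqrt_nonneg _
  set H := α ^ 2 * β ^ 2 + γ ^ 2 * δ ^ 2 with hH
  have hprod : α * β * (γ * δ) ≤ H / 2 := by nlinarith [sq_nonneg (α * β - γ * δ)]
  have i1 : |inn N v u * inn N w s| ≤ H / 2 :=
    mul_le_half _ _ _ _ _ _ (inn_abs_le v u) (inn_abs_le w s) hprod
  -- the sum over the forms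
  have key : ∀ G : List (List (Bool × ℕ × ℕ)), (∀ b ∈ G, ∀ m ∈ b, m.2.1 < N ∧ m.2.2 < N) →
      (G.map fun b => (bval b u w + bval b v s) ^ 2 + 2 * (bval b v w * bval b u s)).sum ≤
        SS G u w + SS G v s + 2 * lsq G * H := by
    intro G hG
    induction G with
    | nil => simp [SS_nil, lsq]
    | cons b G ih =>
      have h1 := ih (fun b' hb' => hG b' (List.mem_cons_of_mem _ hb'))
      have hb := hG b (by simp)
      have e1 := bval_abs_le b hb u w
      have e2 := bval_abs_le b hb v s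
      have e3 := bval_abs_le b hb v w
      have e4 := bval_abs_le b hb u s
      have l0 : (0 : ℝ) ≤ b.length := Nat.cast_nonneg _
      have k1 : |bval b u w * bval b v s| ≤ (b.length : ℝ) ^ 2 * (H / 2) := by
        rw [abs_mul]
        refine (mul_le_mul e1 e2 (abs_nonneg _) (by positivity)).trans ?_
        have : (b.length : ℝ) * (β * γ) * (b.length * (α * δ)) =
            (b.length : ℝ) ^ 2 * (α * β * (γ * δ)) := by ring
        rw [this]
        exact mul_le_mul_of_nonneg_left hprod (by positivity)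
      have k2 : |bval b v w * bval b u s| ≤ (b.length : ℝ) ^ 2 * (H / 2) := by
        rw [abs_mul]
        refine (mul_le_mul e3 e4 (abs_nonneg _) (by positivity)).trans ?_
        have : (b.length : ℝ) * (α * γ) * (b.length * (β * δ)) =
            (b.length : ℝ) ^ 2 * (α * β * (γ * δ)) := by ring
        rw [this]
        exact mul_le_mul_of_nonneg_left hprod (by positivity)
      have k3 := (abs_le.1 k1).2
      have k4 := (abs_le.1 k2).2
      have hl : (lsq (b :: G) : ℝ) = (b.length : ℝ) ^ 2 + lsq G := by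
        unfold lsq
        rw [List.map_cons, List.sum_cons]
        push_cast
        ring
      rw [List.map_cons, List.sum_cons, SS_cons, SS_cons, hl]
      nlinarith
  have h1 := key F hF
  have h2 := hpos u w
  have h3 := hpos v s
  unfold bq at h2 h3
  unfold c2
  rw [← a1, ← b1, ← g1, ← d1] at *
  have h4 := (abs_le.1 i1).1
  have hH0 : 0 ≤ H := by positivity
  have h5 : (C + lsq F) * H ≤ Γ * H := mul_le_mul_of_nonneg_right hΓ hH0
  have hΓ0 : 0 ≤ Γ := le_trans (by positivity) hΓ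
  have h6 : 0 ≤ Γ * (4 * inn N v u ^ 2) := by positivity
  have h7 : 0 ≤ Γ * (4 * inn N w s ^ 2) := by positivity
  have h8 : C * (4 * (inn N v u * inn N w s)) ≥ - (2 * C * H) := by nlinarith
  nlinarith

end Pool.Agent.NPC.H549CV
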