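import Pool.Agent.H549R2.CV.Defs

namespace Pool.Agent.NPC.H549CV

open Pool.Agent.H625R2 Pool.Agent.NPC.ER Pool.Agent.NPC.ER.Tens Pool.Agent.NPC.H670R2

theorem ext_line {n : ℕ} (x h : Fin n → ℝ) (t : ℝ) (i : ℕ) :
    ext (x + t • h) i = ext x i + t * ext h i := by
  unfold ext
  split_ifs with hi
  · simp
  · simp

theorem prod_eq_range (X : ℕ → ℝ) (l : List ℕ) :
    (l.map X).prod = ∏ j ∈ Finset.range l.length, X (l.getD j 0) := by
  induction l with
  | nil => simp
  | cons a l ih =>
    rw [List.map_cons, List.prod_cons, ih, List.length_cons, Finset.prod_range_succ']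
    simp [mul_comm]

theorem hasDerivAt_mono {n : ℕ} (x h : Fin n → ℝ) (r : ℝ) (l : List ℕ) :
    HasDerivAt (fun t : ℝ => (l.map (ext (x + t • h))).prod)
      (dprod (ext (x + r • h)) (ext h) l) r := by
  have h1 : (fun t : ℝ => (l.map (ext (x + t • h))).prod) =
      fun t : ℝ => ∏ j ∈ Finset.range l.length, (ext x (l.getD j 0) + t * ext h (l.getD j 0)) := by
    funext t
    rw [prod_eq_range]
    exact Finset.prod_congr rfl fun j _ => ext_line x h t _
  rw [h1]
  have h2 : ∀ j ∈ Finset.range l.length, HasDerivAt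
      (fun t : ℝ => ext x (l.getD j 0) + t * ext h (l.getD j 0)) (ext h (l.getD j 0)) r := by
    intro j _
    have h3 := ((hasDerivAt_id r).mul_const (ext h (l.getD j 0))).const_add (ext x (l.getD j 0))
    simpa using h3
  have h4 := HasDerivAt.fun_finsetProd h2
  refine h4.congr_deriv ?_
  unfold dprod
  refine Finset.sum_congr rfl fun k _ => ?_
  rw [smul_eq_mul, mul_comm]
  congr 1
  exact Finset.prod_congr rfl fun j _ => (ext_line x h r _).symm

theorem hasDerivAt_pev {n : ℕ} (p : QP) (x h : Fin n → ℝ) (r : ℝ) :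
    HasDerivAt (fun t : ℝ => pev p (ext (x + t • h))) (dpev p (ext (x + r • h)) (ext h)) r := by
  induction p with
  | nil =>
    have h1 : (fun t : ℝ => pev [] (ext (x + t • h))) = fun _ => (0 : ℝ) := by
      funext t; rfl
    rw [h1]
    exact hasDerivAt_const r 0
  | cons a p ih =>
    have h1 : (fun t : ℝ => pev (a :: p) (ext (x + t • h))) = fun t : ℝ =>
        (a.1 : ℝ) * (a.2.map (ext (x + t • h))).prod + pev p (ext (x + t • h)) := by
      funext t
      unfold pev
      rw [List.map_cons, List.sum_cons]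
    have h2 : dpev (a :: p) (ext (x + r • h)) (ext h) =
        (a.1 : ℝ) * dprod (ext (x + r • h)) (ext h) a.2 + dpev p (ext (x + r • h)) (ext h) := by
      unfold dpev
      rw [List.map_cons, List.sum_cons]
    rw [h1, h2]
    exact ((hasDerivAt_mono x h r a.2).const_mul (a.1 : ℝ)).add ih

theorem hasDerivAt_line (P : ℕ × QP) (x h : Fin P.1 → ℝ) (r : ℝ) :
    HasDerivAt (fun t : ℝ => fn P (x + t • h)) (dpev P.2 (ext (x + r • h)) (ext h)) r :=
  hasDerivAt_pev P.2 x h r

end Pool.Agent.NPC.H549CV
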