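import Pool.Agent.H549R2.CV.Defs

namespace Pool.Agent.NPC.H549CV

open Pool.Agent.H625R2 Pool.Agent.NPC.ER Pool.Agent.NPC.ER.Tens Pool.Agent.NPC.H670R2

theorem eval_prodTm (x : ℕ → ℝ) (l : List Tm) :
    (prodTm l).eval x = (l.map (Tm.eval x)).prod := by
  induction l with
  | nil => simp [prodTm, Tm.eval]
  | cons t l ih =>
    have h : prodTm (t :: l) = Tm.mul t (prodTm l) := rfl
    rw [h, Tm.eval, ih]
    simp

theorem toks_prodTm (l : List Tm) : (prodTm l).toks = l.flatMap Tm.toks ++ [Tok.one] ++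
    List.replicate l.length Tok.mul := by
  induction l with
  | nil => rfl
  | cons t l ih =>
    have h : prodTm (t :: l) = Tm.mul t (prodTm l) := rfl
    rw [h, Tm.toks, ih]
    simp [List.replicate_succ']

theorem poly_prodTm {α : Type} [TEnc α] {l : α → List Tm} (hl : Poly l) :
    Poly (fun a => prodTm (l a)) := by
  refine tm_of_toks (Poly.congr (f := fun a => (l a).flatMap Tm.toks ++ [Tok.one] ++
    List.replicate (l a).length Tok.mul) ?_ fun a => (toks_prodTm _).symm)
  refine Poly.append (Poly.append (Poly.flatMap (F := fun _ φ => Tm.toks φ) hl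
    (tm_toks (Poly.snd Poly.id))) (Poly.const _)) (poly_replicate hl _)

theorem eval_evT (p : QP) (V : ℕ → Tm) (x : ℕ → ℝ) :
    (evT p V).eval x = pev p (fun i => (V i).eval x) := by
  unfold evT pev
  rw [eval_sumTm, List.map_map]
  congr 1
  refine List.map_congr_left fun t _ => ?_
  show (Tm.mul (intTm t.1) (prodTm (t.2.map V))).eval x = _
  rw [Tm.eval, eval_intTm, eval_prodTm, List.map_map]
  rfl

theorem prod_filter_range (n k : ℕ) (f : ℕ → ℝ) :
    (((List.range n).filter fun j => decide (j ≠ k)).map f).prod =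
      ∏ j ∈ (Finset.range n).erase k, f j := by
  have h1 : (Finset.range n).erase k =
      ((List.range n).filter fun j => decide (j ≠ k)).toFinset := by
    ext j
    simp [and_comm]
  rw [h1, List.prod_toFinset]
  exact (List.nodup_range).filter _

theorem eval_dProd (V H : ℕ → Tm) (l : List ℕ) (x : ℕ → ℝ) :
    (dProd V H l).eval x = dprod (fun i => (V i).eval x) (fun i => (H i).eval x) l := by
  unfold dProd dprod
  rw [eval_sumTm, List.map_map, ← sum_range_list]
  congr 1
  refine List.map_congr_left fun k _ => ?_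
  show (Tm.mul (H (l.getD k 0)) (prodTm (((List.range l.length).filter fun j =>
    decide (j ≠ k)).map fun j => V (l.getD j 0)))).eval x = _
  rw [Tm.eval, eval_prodTm, List.map_map, ← prod_filter_range]
  rfl

theorem eval_dT (p : QP) (V H : ℕ → Tm) (x : ℕ → ℝ) :
    (dT p V H).eval x = dpev p (fun i => (V i).eval x) (fun i => (H i).eval x) := by
  unfold dT dpev
  rw [eval_sumTm, List.map_map]
  congr 1
  refine List.map_congr_left fun t _ => ?_
  show (Tm.mul (intTm t.1) (dProd V H t.2)).eval x = _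
  rw [Tm.eval, eval_intTm, eval_dProd]

theorem evT_poly {α : Type} [TEnc α] {p : α → QP} {V : ℕ → Tm} (hp : Poly p) (hV : Poly V) :
    Poly (fun a => evT (p a) V) := by
  refine poly_sumTm (Poly.map (F := fun (_ : α) (t : ℤ × List ℕ) =>
    Tm.mul (intTm t.1) (prodTm (t.2.map V))) hp ?_)
  refine poly_tmul (poly_intTm (Poly.fst (Poly.snd Poly.id))) (poly_prodTm ?_)
  exact Poly.map (F := fun (_ : α × (ℤ × List ℕ)) (i : ℕ) => V i)
    (Poly.snd (Poly.snd Poly.id)) (hV.comp (Poly.snd Poly.id))

theorem dProd_poly {α : Type} [TEnc α] {l : α → List ℕ} {V H : ℕ → Tm} (hl : Poly l)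
    (hV : Poly V) (hH : Poly H) : Poly (fun a => dProd V H (l a)) := by
  refine poly_sumTm (Poly.map (F := fun (a : α) (k : ℕ) => Tm.mul (H ((l a).getD k 0))
    (prodTm (((List.range (l a).length).filter fun j => decide (j ≠ k)).map
      fun j => V ((l a).getD j 0)))) (UPoly.length hl).range ?_)
  refine poly_tmul (hH.comp (Poly.getD (d := fun _ => 0) (hl.comp (Poly.fst Poly.id))
    (Poly.snd Poly.id) (Poly.const _))) (poly_prodTm ?_)
  refine Poly.map (F := fun (y : α × ℕ) (j : ℕ) => V ((l y.1).getD j 0)) ?_ ?_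
  · refine Poly.filter (p := fun (y : α × ℕ) (j : ℕ) => decide (j ≠ y.2))
      (UPoly.length (hl.comp (Poly.fst Poly.id))).range ?_
    exact Poly.decide_not (p := fun z : (α × ℕ) × ℕ => z.2 = z.1.2)
      (Poly.decide_eq (Poly.snd Poly.id) (Poly.snd (Poly.fst Poly.id)))
  · exact hV.comp (Poly.getD (d := fun _ => 0) (hl.comp (Poly.fst (Poly.fst Poly.id)))
      (Poly.snd Poly.id) (Poly.const _))

theorem dT_poly {α : Type} [TEnc α] {p : α → QP} {V H : ℕ → Tm} (hp : Poly p) (hV : Poly V)
    (hH : Poly H) : Poly (fun a => dT (p a) V H) := by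
  refine poly_sumTm (Poly.map (F := fun (_ : α) (t : ℤ × List ℕ) =>
    Tm.mul (intTm t.1) (dProd V H t.2)) hp ?_)
  exact poly_tmul (poly_intTm (Poly.fst (Poly.snd Poly.id)))
    (dProd_poly (Poly.snd (Poly.snd Poly.id)) hV hH)

end Pool.Agent.NPC.H549CV
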