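import Pool.Agent.H549R2.CV.Defs

namespace Pool.Agent.NPC.H549CV

open Pool.Agent.H625R2 Pool.Agent.NPC.ER Pool.Agent.NPC.ER.Tens Pool.Agent.NPC.H670R2

/-- the identity for the product of two quadratic polynomials -/
theorem seg_prod (p0 p1 p2 q0 q1 q2 a b : ℝ) (hab : a + b = 1) :
    a * ((p0 + p1 + p2) * (q0 + q1 + q2)) + b * (p0 * q0) -
      (p0 + a * p1 + a ^ 2 * p2) * (q0 + a * q1 + a ^ 2 * q2) =
    a * b * (((p0 + (1 + a) / 3 * p1 + ((1 + a) / 3) ^ 2 * p2) * q2 +
      (p1 + 2 * ((1 + a) / 3) * p2) * (q1 + 2 * ((1 + a) / 3) * q2) +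
      p2 * (q0 + (1 + a) / 3 * q1 + ((1 + a) / 3) ^ 2 * q2)) + (1 - a + a ^ 2) / 3 * (p2 * q2)) := by
  have hb : b = 1 - a := by linarith
  subst hb
  ring

theorem inn_seg (N : ℕ) (v u w s : ℕ → ℝ) (t : ℝ) :
    inn N (fun i => v i + t * u i) (fun i => w i + t * s i) =
      inn N v w + t * (inn N u w + inn N v s) + t ^ 2 * inn N u s := by
  unfold inn
  rw [Finset.mul_sum, ← Finset.sum_add_distrib, Finset.mul_sum, ← Finset.sum_add_distrib,
    ← Finset.sum_add_distrib]
  exact Finset.sum_congr rfl fun i _ => by ring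

theorem bval_seg (b : List (Bool × ℕ × ℕ)) (v u w s : ℕ → ℝ) (t : ℝ) :
    bval b (fun i => v i + t * u i) (fun i => w i + t * s i) =
      bval b v w + t * (bval b u w + bval b v s) + t ^ 2 * bval b u s := by
  induction b with
  | nil => simp
  | cons m b ih => simp only [bval_cons]; rw [ih]; ring

theorem inn_comm (N : ℕ) (v w : ℕ → ℝ) : inn N v w = inn N w v := by
  unfold inn
  exact Finset.sum_congr rfl fun i _ => by ring

theorem inn_right (N : ℕ) (v w s : ℕ → ℝ) (t : ℝ) :
    inn N v (fun i => w i + t * s i) = inn N v w + t * inn N v s := by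
  unfold inn
  rw [Finset.mul_sum, ← Finset.sum_add_distrib]
  exact Finset.sum_congr rfl fun i _ => by ring

theorem inn_left (N : ℕ) (v u w : ℕ → ℝ) (t : ℝ) :
    inn N (fun i => v i + t * u i) w = inn N v w + t * inn N u w := by
  unfold inn
  rw [Finset.mul_sum, ← Finset.sum_add_distrib]
  exact Finset.sum_congr rfl fun i _ => by ring

theorem bval_right (b : List (Bool × ℕ × ℕ)) (v w s : ℕ → ℝ) (t : ℝ) :
    bval b v (fun i => w i + t * s i) = bval b v w + t * bval b v s := by
  induction b with
  | nil => simp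
  | cons m b ih => simp only [bval_cons]; rw [ih]; ring

theorem bval_left (b : List (Bool × ℕ × ℕ)) (v u w : ℕ → ℝ) (t : ℝ) :
    bval b (fun i => v i + t * u i) w = bval b v w + t * bval b u w := by
  induction b with
  | nil => simp
  | cons m b ih => simp only [bval_cons]; rw [ih]; ring

theorem one_form (v w : ℕ → ℝ) (u s : ℕ → ℝ) :
    (fun i => v i + u i) = (fun i => v i + 1 * u i) ∧
      (fun i => w i + s i) = (fun i => w i + 1 * s i) := by
  constructor <;> · funext i; ring

theorem SS_seg (F : List (List (Bool × ℕ × ℕ))) (v w u s : ℕ → ℝ) (a b : ℝ)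
    (hab : a + b = 1) :
    a * SS F (fun i => v i + 1 * u i) (fun i => w i + 1 * s i) + b * SS F v w -
      SS F (fun i => v i + a * u i) (fun i => w i + a * s i) =
    a * b * ((F.map fun b => (bval b u (fun i => w i + (1 + a) / 3 * s i) +
        bval b (fun i => v i + (1 + a) / 3 * u i) s) ^ 2 +
        2 * (bval b (fun i => v i + (1 + a) / 3 * u i) (fun i => w i + (1 + a) / 3 * s i) *
          bval b u s)).sum + (1 - a + a ^ 2) / 3 * SS F u s) := by
  induction F with
  | nil => simp [SS_nil]
  | cons f F ih =>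
    have h1 := seg_prod (bval f v w) (bval f u w + bval f v s) (bval f u s) (bval f v w)
      (bval f u w + bval f v s) (bval f u s) a b hab
    simp only [SS_cons, List.map_cons, List.sum_cons, bval_right, bval_left]
    simp only [bval_right, bval_left] at ih
    linear_combination ih + h1

theorem GG_seg (C Γ : ℝ) (N : ℕ) (F : List (List (Bool × ℕ × ℕ))) (v w u s : ℕ → ℝ) (a b : ℝ)
    (hab : a + b = 1) :
    a * GG C Γ N F (fun i => v i + u i) (fun i => w i + s i) + b * GG C Γ N F v w -
      GG C Γ N F (fun i => v i + a * u i) (fun i => w i + a * s i) =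
    a * b * (c2 C Γ N F (fun i => v i + (1 + a) / 3 * u i) (fun i => w i + (1 + a) / 3 * s i) u s +
      (1 - a + a ^ 2) / 3 * GG C Γ N F u s) := by
  obtain ⟨e1, e2⟩ := one_form v w u s
  rw [e1, e2]
  have h0 := SS_seg F v w u s a b hab
  have h1 := seg_prod (inn N v v) (2 * inn N v u) (inn N u u) (inn N w w) (2 * inn N w s)
    (inn N s s) a b hab
  have h2 := seg_prod (inn N v v) (2 * inn N v u) (inn N u u) (inn N v v) (2 * inn N v u)
    (inn N u u) a b hab
  have h3 := seg_prod (inn N w w) (2 * inn N w s) (inn N s s) (inn N w w) (2 * inn N w s)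
    (inn N s s) a b hab
  unfold GG bq c2
  simp only [inn_left, inn_right, inn_comm N u v, inn_comm N s w]
  generalize (F.map fun b => (bval b u (fun i => w i + (1 + a) / 3 * s i) +
        bval b (fun i => v i + (1 + a) / 3 * u i) s) ^ 2 +
        2 * (bval b (fun i => v i + (1 + a) / 3 * u i) (fun i => w i + (1 + a) / 3 * s i) *
          bval b u s)).sum = X at *
  linear_combination C * h1 - h0 + Γ * h2 + Γ * h3

end Pool.Agent.NPC.H549CV
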