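import Pool.Agent.H549R2.CV.W1
import Pool.Agent.H549R2.CV.W2

namespace Pool.Agent.NPC.H549CV

open Pool.Agent.H625R2 Pool.Agent.NPC.ER Pool.Agent.NPC.ER.Tens Pool.Agent.NPC.H670R2

variable {C Γ : ℝ} {N : ℕ} {F : List (List (Bool × ℕ × ℕ))}

theorem GG_conv (hF : ∀ b ∈ F, ∀ m ∈ b, m.2.1 < N ∧ m.2.2 < N) (hC : 0 ≤ C)
    (hΓ : C + lsq F + 1 ≤ Γ) (hpos : ∀ v w, 0 ≤ bq C N F v w) (x x' y y' : ℕ → ℝ) (a b : ℝ)
    (ha : 0 ≤ a) (hb : 0 ≤ b) (hab : a + b = 1) :
    GG C Γ N F (fun i => a * x i + b * y i) (fun i => a * x' i + b * y' i) +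
      a * b / 4 * (inn N (fun i => x i - y i) (fun i => x i - y i) ^ 2 +
        inn N (fun i => x' i - y' i) (fun i => x' i - y' i) ^ 2) ≤
      a * GG C Γ N F x x' + b * GG C Γ N F y y' := by
  have hseg := GG_seg C Γ N F y y' (fun i => x i - y i) (fun i => x' i - y' i) a b hab
  have e1 : ∀ z t : ℕ → ℝ, (fun i => t i + (z i - t i)) = z := by
    intro z t
    funext i
    ring
  have e2 : ∀ z t : ℕ → ℝ, (fun i => t i + a * (z i - t i)) = fun i => a * z i + b * t i := by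
    intro z t
    funext i
    have : b = 1 - a := by linarith
    rw [this]
    ring
  rw [e1 x y, e1 x' y', e2 x y, e2 x' y'] at hseg
  have hc := c2_nonneg hF hC (by linarith : C + lsq F ≤ Γ) hpos
    (fun i => y i + (1 + a) / 3 * (x i - y i)) (fun i => y' i + (1 + a) / 3 * (x' i - y' i))
    (fun i => x i - y i) (fun i => x' i - y' i)
  obtain ⟨S, hS⟩ : ∃ S : ℝ, S = inn N (fun i => x i - y i) (fun i => x i - y i) ^ 2 +
        inn N (fun i => x' i - y' i) (fun i => x' i - y' i) ^ 2 := ⟨_, rfl⟩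
  have hS0 : 0 ≤ S := by
    rw [hS]
    positivity
  have hl : (0 : ℝ) ≤ (lsq F : ℝ) := Nat.cast_nonneg _
  have hG : S ≤ GG C Γ N F (fun i => x i - y i) (fun i => x' i - y' i) := by
    unfold GG
    rw [← hS]
    have h1 := hpos (fun i => x i - y i) (fun i => x' i - y' i)
    have h2 : 1 * S ≤ Γ * S := mul_le_mul_of_nonneg_right (by linarith) hS0
    linarith
  have hq : 1 / 4 ≤ (1 - a + a ^ 2) / 3 := by
    nlinarith [sq_nonneg (2 * a - 1)]
  have h3 : 1 / 4 * S ≤ (1 - a + a ^ 2) / 3 *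
      GG C Γ N F (fun i => x i - y i) (fun i => x' i - y' i) :=
    mul_le_mul hq hG hS0 (by linarith)
  have hab0 : 0 ≤ a * b := mul_nonneg ha hb
  have h4 : a * b * (1 / 4 * S) ≤ a * b * (c2 C Γ N F
      (fun i => y i + (1 + a) / 3 * (x i - y i)) (fun i => y' i + (1 + a) / 3 * (x' i - y' i))
      (fun i => x i - y i) (fun i => x' i - y' i) + (1 - a + a ^ 2) / 3 *
      GG C Γ N F (fun i => x i - y i) (fun i => x' i - y' i)) :=
    mul_le_mul_of_nonneg_left (by linarith) hab0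
  rw [← hseg] at h4
  rw [← hS]
  have h5 : a * b / 4 * S = a * b * (1 / 4 * S) := by ring
  linarith

end Pool.Agent.NPC.H549CV
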