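import Pool.Agent.H549R2.CV.Defs

namespace Pool.Agent.NPC.H549CV

open Pool.Agent.H625R2 Pool.Agent.NPC.ER Pool.Agent.NPC.ER.Tens Pool.Agent.NPC.H670R2

variable {C Γ : ℝ} {N : ℕ} {F : List (List (Bool × ℕ × ℕ))}

theorem bval_scale (b : List (Bool × ℕ × ℕ)) (v w : ℕ → ℝ) (r : ℝ) :
    bval b v (fun i => r * w i) = r * bval b v w := by
  induction b with
  | nil => simp
  | cons m b ih => rw [bval_cons, bval_cons, ih]; ring

theorem SS_scale (F : List (List (Bool × ℕ × ℕ))) (v w : ℕ → ℝ) (r : ℝ) :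
    SS F v (fun i => r * w i) = r ^ 2 * SS F v w := by
  induction F with
  | nil => simp [SS_nil]
  | cons b F ih => rw [SS_cons, SS_cons, ih, bval_scale]; ring

theorem inn_scale (N : ℕ) (w : ℕ → ℝ) (r : ℝ) :
    inn N (fun i => r * w i) (fun i => r * w i) = r ^ 2 * inn N w w := by
  unfold inn
  rw [Finset.mul_sum]
  exact Finset.sum_congr rfl fun i _ => by ring

theorem GG_line (C Γ : ℝ) (N : ℕ) (F : List (List (Bool × ℕ × ℕ))) (v w : ℕ → ℝ) (r : ℝ) :
    GG C Γ N F v (fun i => r * w i) =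
      Γ * inn N v v ^ 2 + r ^ 2 * bq C N F v w + r ^ 4 * (Γ * inn N w w ^ 2) := by
  unfold GG bq
  rw [SS_scale, inn_scale]
  ring

theorem exists_lt {v w : ℕ → ℝ} (h : bq C N F v w < 0) : ∃ r : ℝ, 0 < r ∧
    GG C Γ N F v (fun i => r * w i) < GG C Γ N F v (fun _ => 0) ∧
    GG C Γ N F v (fun i => -r * w i) < GG C Γ N F v (fun _ => 0) := by
  have h0 : GG C Γ N F v (fun _ => 0) = Γ * inn N v v ^ 2 := by
    have := GG_line C Γ N F v w 0
    simpa using this
  set q := bq C N F v w with hq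
  set K := |Γ| * inn N w w ^ 2 + 1 with hK
  have hK1 : 0 < K := by positivity
  have hKle : Γ * inn N w w ^ 2 ≤ K := by
    have h1 := mul_le_mul_of_nonneg_right (le_abs_self Γ) (sq_nonneg (inn N w w))
    linarith
  set t := -q / (2 * K) with ht
  have ht0 : 0 < t := by
    rw [ht]
    apply div_pos
    · linarith
    · positivity
  have htK : t * K = -q / 2 := by
    rw [ht]
    field_simp
  have hr : √t ^ 2 = t := Real.sq_sqrt ht0.le
  have hr4 : √t ^ 4 = t * t := by
    have : √t ^ 4 = √t ^ 2 * √t ^ 2 := by ring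
    rw [this, hr]
  have key : t * q + t * t * (Γ * inn N w w ^ 2) < 0 := by
    have h1 : t * t * (Γ * inn N w w ^ 2) ≤ t * t * K :=
      mul_le_mul_of_nonneg_left hKle (by positivity)
    have h2 : t * t * K = t * (-q / 2) := by rw [mul_assoc, htK]
    have h3 : t * q < 0 := mul_neg_of_pos_of_neg ht0 h
    nlinarith
  refine ⟨√t, Real.sqrt_pos.2 ht0, ?_, ?_⟩
  · rw [GG_line, h0, ← hq, hr, hr4]
    linarith
  · rw [GG_line, h0, ← hq]
    have e2 : (-√t) ^ 2 = t := by rw [neg_sq, hr]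
    have e4 : (-√t) ^ 4 = t * t := by
      have : (-√t) ^ 4 = √t ^ 4 := by ring
      rw [this, hr4]
    rw [e2, e4]
    linarith

end Pool.Agent.NPC.H549CV
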