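import Pool.Agent.H549R2.CV.Defs

namespace Pool.Agent.NPC.H549CV

open Pool.Agent.H625R2 Pool.Agent.NPC.ER Pool.Agent.NPC.ER.Tens Pool.Agent.NPC.H670R2

section

variable {α : Type} [TEnc α]

theorem poly_natNegInt {z : α → ℕ} (hz : Poly z) : Poly (fun a => -((z a : ℕ) : ℤ)) :=
  (poly_intSub (Poly.const 0) hz).congr fun a => by simp

theorem poly_four {i j k l : α → ℕ} (hi : Poly i) (hj : Poly j) (hk : Poly k) (hl : Poly l) :
    Poly (fun a => [i a, j a, k a, l a]) :=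
  Poly.cons hi (Poly.cons hj (Poly.cons hk (Poly.cons hl (Poly.const []))))

theorem poly_termsA {C : α → ℤ} {N : α → ℕ} (hC : Poly C) (hN : UPoly N) :
    Poly (fun a => termsA (C a) (N a)) := by
  refine Poly.map (F := fun a (p : ℕ × ℕ) => (C a, [p.1, p.1, N a + p.2, N a + p.2]))
    (poly_pairs hN) ?_
  have h1 : Poly (fun x : α × (ℕ × ℕ) => x.2.1) := Poly.fst (Poly.snd Poly.id)
  have h2 : Poly (fun x : α × (ℕ × ℕ) => N x.1 + x.2.2) :=
    Poly.add (hN.toPoly.comp (Poly.fst Poly.id)) (Poly.snd (Poly.snd Poly.id))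
  exact Poly.pair (hC.comp (Poly.fst Poly.id)) (poly_four h1 h1 h2 h2)

theorem poly_termsD {C : α → ℤ} {N s : α → ℕ} (hC : Poly C) (hN : UPoly N) (hs : Poly s) :
    Poly (fun a => termsD (C a) (N a) (s a)) := by
  refine Poly.map (F := fun a (p : ℕ × ℕ) => (C a, [s a + p.1, s a + p.1, s a + p.2, s a + p.2]))
    (poly_pairs hN) ?_
  have h1 : Poly (fun x : α × (ℕ × ℕ) => s x.1 + x.2.1) :=
    Poly.add (hs.comp (Poly.fst Poly.id)) (Poly.fst (Poly.snd Poly.id))
  have h2 : Poly (fun x : α × (ℕ × ℕ) => s x.1 + x.2.2) :=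
    Poly.add (hs.comp (Poly.fst Poly.id)) (Poly.snd (Poly.snd Poly.id))
  exact Poly.pair (hC.comp (Poly.fst Poly.id)) (poly_four h1 h1 h2 h2)

theorem poly_sgn {b c : α → Bool} (hb : Poly b) (hc : Poly c) :
    Poly (fun a => -(sgnZ (b a) * sgnZ (c a))) := by
  have h1 : Poly (fun a => decide (b a = c a)) := Poly.decide_eq hb hc
  refine (Poly.ite h1 (Poly.const (-1 : ℤ)) (Poly.const (1 : ℤ))).congr fun a => ?_
  cases b a <;> cases c a <;> simp [sgnZ]

theorem poly_termsB {N : α → ℕ} {b : α → List (Bool × ℕ × ℕ)} (hN : Poly N) (hb : Poly b) :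
    Poly (fun a => termsB (N a) (b a)) := by
  refine Poly.flatMap (F := fun a (m : Bool × ℕ × ℕ) => (b a).map fun m' =>
    (-(sgnZ m.1 * sgnZ m'.1), [m.2.1, N a + m.2.2, m'.2.1, N a + m'.2.2])) hb ?_
  refine Poly.map (F := fun (x : α × (Bool × ℕ × ℕ)) (m' : Bool × ℕ × ℕ) =>
    (-(sgnZ x.2.1 * sgnZ m'.1), [x.2.2.1, N x.1 + x.2.2.2, m'.2.1, N x.1 + m'.2.2]))
    (hb.comp (Poly.fst Poly.id)) ?_
  have k1 : Poly (fun y : (α × (Bool × ℕ × ℕ)) × (Bool × ℕ × ℕ) => y.1.2) :=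
    Poly.snd (Poly.fst Poly.id)
  have k2 : Poly (fun y : (α × (Bool × ℕ × ℕ)) × (Bool × ℕ × ℕ) => y.2) := Poly.snd Poly.id
  have k3 : Poly (fun y : (α × (Bool × ℕ × ℕ)) × (Bool × ℕ × ℕ) => N y.1.1) :=
    hN.comp (Poly.fst (Poly.fst Poly.id))
  exact Poly.pair (poly_sgn (Poly.fst k1) (Poly.fst k2))
    (poly_four (Poly.fst (Poly.snd k1)) (Poly.add k3 (Poly.snd (Poly.snd k1)))
      (Poly.fst (Poly.snd k2)) (Poly.add k3 (Poly.snd (Poly.snd k2))))

theorem poly_mkP {C Γ : α → ℤ} {N : α → ℕ} {F : α → List (List (Bool × ℕ × ℕ))} (hC : Poly C)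
    (hΓ : Poly Γ) (hN : UPoly N) (hF : Poly F) : Poly (fun a => mkP (C a) (Γ a) (N a) (F a)) := by
  refine Poly.pair (Poly.mul (Poly.const 2) hN.toPoly) ?_
  refine Poly.append (Poly.append (poly_termsA hC hN) ?_)
    (Poly.append (poly_termsD hΓ hN (Poly.const 0)) (poly_termsD hΓ hN hN.toPoly))
  exact Poly.flatMap (F := fun a b => termsB (N a) b) hF
    (poly_termsB (hN.toPoly.comp (Poly.fst Poly.id)) (Poly.snd Poly.id))

theorem poly_sq {f : α → ℕ} (hf : Poly f) : Poly (fun a => f a ^ 2) :=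
  (Poly.mul hf hf).congr fun a => by rw [pow_two]

theorem poly_lsq {F : α → List (List (Bool × ℕ × ℕ))} (hF : Poly F) :
    Poly (fun a => lsq (F a)) := by
  refine Poly.sum (Poly.map (F := fun _ (b : List (Bool × ℕ × ℕ)) => b.length ^ 2) hF ?_)
  exact poly_sq (Poly.length (Poly.snd Poly.id))

end

theorem poly_redC : Poly redC :=
  poly_sq (Poly.add (Poly.mul (Poly.const 4) (Poly.length (poly_rl poly_redQ))) (Poly.const 5))

theorem poly_redG : Poly redG :=
  Poly.add (Poly.add poly_redC (poly_lsq poly_redF)) (Poly.const 1)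

theorem redP_poly : Poly redP :=
  poly_mkP (poly_natInt poly_redC) (poly_natInt poly_redG) upoly_redN poly_redF

theorem redPS_poly : Poly redPS := by
  refine Poly.pair (Poly.fst redP_poly) (Poly.append (Poly.snd redP_poly) ?_)
  have h1 : UPoly (fun S : List Con => (redP S).1) := UPoly.mul (UPoly.const 2) upoly_redN
  refine Poly.map (F := fun (_ : List Con) (i : ℕ) => ((1 : ℤ), [i, i])) h1.range ?_
  exact Poly.pair (Poly.const 1) (Poly.cons (Poly.snd Poly.id)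
    (Poly.cons (Poly.snd Poly.id) (Poly.const [])))

end Pool.Agent.NPC.H549CV
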